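import Pool.Agent.Helper87.SSP.Ring

/-!
# Commuting operators with flat relations
-/

namespace Pool.Agent.Helper87.SSP2

open Polynomial Pool.Agent.Helper87.SSP

section abs

variable {Q : Type*} [CommGroup Q] {E : Type*} [Ring E] (ρ : Q →* E)

/-- The action of the group ring. -/
noncomputable def Phi : MonoidAlgebra ℤ Q →ₐ[ℤ] E := MonoidAlgebra.lift ℤ _ _ ρ

/-- The commutative ring generated by the action. -/
def RR : Type _ := MonoidAlgebra ℤ Q ⧸ RingHom.ker (Phi ρ)

noncomputable instance : CommRing (RR ρ) :=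
  inferInstanceAs (CommRing (MonoidAlgebra ℤ Q ⧸ RingHom.ker (Phi ρ)))

/-- The projection. -/
noncomputable def toRR : MonoidAlgebra ℤ Q →+* RR ρ := Ideal.Quotient.mk _

lemma toRR_surj : Function.Surjective (toRR ρ) := Ideal.Quotient.mk_surjective

/-- The ring acts. -/
noncomputable def Psi : RR ρ →+* E :=
  Ideal.Quotient.lift (RingHom.ker (Phi ρ)) (Phi ρ).toRingHom fun _ h => h

lemma Psi_toRR (f : MonoidAlgebra ℤ Q) : Psi ρ (toRR ρ f) = Phi ρ f := rfl

lemma Psi_inj {r : RR ρ} (h : Psi ρ r = 0) : r = 0 := by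
  obtain ⟨f, rfl⟩ := toRR_surj ρ r
  rw [Psi_toRR] at h
  exact Ideal.Quotient.eq_zero_iff_mem.2 h

/-- The elements of the group in the ring. -/
noncomputable def uu : Q →* RR ρ := (toRR ρ).toMonoidHom.comp (MonoidAlgebra.of ℤ _)

lemma Psi_uu (q : Q) : Psi ρ (uu ρ q) = ρ q := by
  show Phi ρ (MonoidAlgebra.of ℤ _ q) = ρ q
  rw [Phi, MonoidAlgebra.lift_of]

lemma Psi_aeval (q : Q) (P : ℤ[X]) : Psi ρ (aeval (uu ρ q) P) = aeval (ρ q) P := by
  rw [← Psi_uu ρ q]
  exact (Polynomial.aeval_algHom_apply (Psi ρ).toIntAlgHom (uu ρ q) P).symm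

variable {ρ}

/-- Every element is killed by a product of flat polynomials. -/
def Flats (ρ : Q →* E) : Prop :=
  ∀ q : Q, ∃ l : List ℤ[X], (∀ P ∈ l, Flat P) ∧ aeval (ρ q) l.prod = 0

lemma Flats.uu (h : Flats ρ) (q : Q) :
    ∃ l : List ℤ[X], (∀ P ∈ l, Flat P) ∧ aeval (uu ρ q) l.prod = 0 := by
  obtain ⟨l, hl, h0⟩ := h q
  refine ⟨l, hl, Psi_inj ρ ?_⟩
  rw [Psi_aeval, h0]

lemma Flats.isIntegral (h : Flats ρ) (r : RR ρ) : IsIntegral ℤ r := by
  obtain ⟨f, rfl⟩ := toRR_surj ρ r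
  induction f using MonoidAlgebra.induction_on with
  | of g =>
    obtain ⟨l, hl, h0⟩ := h.uu g
    exact isIntegral_of_flat hl h0
  | add f g hf hg' => rw [map_add]; exact hf.add hg'
  | smul n f hf =>
    have : toRR ρ (n • f) = n • toRR ρ f := map_zsmul (toRR ρ) n f
    rw [this]
    exact hf.smul n

lemma Flats.finite [Group.FG Q] (h : Flats ρ) : Module.Finite ℤ (RR ρ) := by
  have : Monoid.FG Q := Group.fg_iff_monoid_fg.1 inferInstance
  have h1 : Algebra.FiniteType ℤ (MonoidAlgebra ℤ Q) := inferInstance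
  have h2 : Algebra.FiniteType ℤ (RR ρ) :=
    h1.of_surjective (toRR ρ).toIntAlgHom (toRR_surj ρ)
  have h3 : Algebra.IsIntegral ℤ (RR ρ) := ⟨h.isIntegral⟩
  exact Algebra.IsIntegral.finite

lemma Flats.nilpotent [Group.FG Q] (h : Flats ρ) (q : Q) :
    ∃ M : ℕ, 0 < M ∧ IsNilpotent (SSP2.uu ρ q ^ M - 1) := by
  have := h.finite
  refine exists_pow_sub_one_nilpotent ((SSP2.uu ρ).toHomUnits q) fun s hs => ?_
  obtain ⟨l, hl, h0⟩ := h.uu (q ^ s)
  refine ⟨l, hl, ?_⟩
  rw [map_pow] at h0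
  exact h0

/-- The projection of the group to the reduced ring. -/
noncomputable def red (ρ : Q →* E) : Q →* RR ρ ⧸ nilradical (RR ρ) :=
  (Ideal.Quotient.mk (nilradical (RR ρ))).toMonoidHom.comp (uu ρ)

lemma mem_ker_red {q : Q} : q ∈ (red ρ).ker ↔ uu ρ q - 1 ∈ nilradical (RR ρ) := by
  rw [MonoidHom.mem_ker]
  show Ideal.Quotient.mk _ (uu ρ q) = 1 ↔ _
  rw [← map_one (Ideal.Quotient.mk (nilradical (RR ρ))), Ideal.Quotient.eq]

/-- A finitely generated commutative group of operators with flat relations is virtually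
unipotent. -/
theorem exists_unipotent [Group.FG Q] (h : Flats ρ) :
    ∃ K : Subgroup Q, K.FiniteIndex ∧ ∃ k : ℕ, ∀ l : List Q, (∀ q ∈ l, q ∈ K) → l.length = k →
      (l.map fun q => ρ q - 1).prod = 0 := by
  have hfin := h.finite
  have hnoe : IsNoetherian ℤ (RR ρ) := isNoetherian_of_isNoetherianRing_of_finite ℤ _
  have hnoe' : IsNoetherianRing (RR ρ) := isNoetherian_of_tower ℤ hnoe
  refine ⟨(red ρ).ker, ?_, ?_⟩
  · have h3 : Finite (Q ⧸ (red ρ).ker) := by
      have : Group.FG (Q ⧸ (red ρ).ker) := QuotientGroup.fg _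
      refine CommGroup.finite_of_fg_isMulTorsion _ fun x => ?_
      induction x using QuotientGroup.induction_on with
      | H x =>
        obtain ⟨M, hM, hnil⟩ := h.nilpotent x
        refine isOfFinOrder_iff_pow_eq_one.2 ⟨M, hM, ?_⟩
        have h4 : x ^ M ∈ (red ρ).ker := by
          rw [mem_ker_red, map_pow]
          exact mem_nilradical.2 hnil
        exact (QuotientGroup.eq_one_iff (x ^ M)).2 h4
    exact ⟨Subgroup.index_ne_zero_of_finite⟩
  · obtain ⟨k, hk⟩ := IsNoetherianRing.isNilpotent_nilradical (RR ρ)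
    refine ⟨k, fun l hl hlen => ?_⟩
    have h1 : ∀ l : List Q, (∀ q ∈ l, q ∈ (red ρ).ker) →
        (l.map fun q => uu ρ q - 1).prod ∈ nilradical (RR ρ) ^ l.length := by
      intro l
      induction l with
      | nil => intro _; simp
      | cons q l ih =>
        intro hl
        rw [List.map_cons, List.prod_cons, List.length_cons, pow_succ']
        exact Ideal.mul_mem_mul (mem_ker_red.1 (hl q List.mem_cons_self))
          (ih fun p hp => hl p (List.mem_cons_of_mem _ hp))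
    have h2 := h1 l hl
    rw [hlen, hk, Ideal.zero_eq_bot, Ideal.mem_bot] at h2
    have h3 := congrArg (Psi ρ) h2
    rw [map_zero, map_list_prod, List.map_map] at h3
    rw [← h3]
    congr 1
    refine List.map_congr_left fun q _ => ?_
    show ρ q - 1 = Psi ρ (uu ρ q - 1)
    rw [map_sub, Psi_uu, map_one]

end abs

/-- The same for a group that is commutative. -/
theorem exists_unipotent' {Q : Type*} [inst : Group Q] (hcomm : ∀ x y : Q, x * y = y * x)
    [hfg : Group.FG Q] {E : Type*} [Ring E] (ρ : Q →* E)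
    (h : ∀ q : Q, ∃ l : List ℤ[X], (∀ P ∈ l, Flat P) ∧ aeval (ρ q) l.prod = 0) :
    ∃ K : Subgroup Q, K.FiniteIndex ∧ ∃ k : ℕ, ∀ l : List Q, (∀ q ∈ l, q ∈ K) → l.length = k →
      (l.map fun q => ρ q - 1).prod = 0 :=
  @exists_unipotent Q { inst with mul_comm := hcomm } E _ ρ hfg h

end Pool.Agent.Helper87.SSP2
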