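import Pool.Agent.Helper87.SSP2.Cls
import Pool.Agent.Helper87.SSP2.Abstract

/-!
# Good pairs
-/

namespace Pool.Agent.Helper87.SSP2

open Polynomial Subgroup Pool.Agent.Helper87.SSP

variable {G : Type*} [Group G]

/-- The conjugates of `a` by the powers of `t`. -/
def DD (t a : G) (k : ℕ) : G := t ^ k * a * (t ^ k)⁻¹

/-- The subgroup generated by the conjugates of `a` by all powers of `t`. -/
def orb (t a : G) : Subgroup G := closure (Set.range fun i : ℤ => t ^ i * a * (t ^ i)⁻¹)

lemma DD_mem_orb (t a : G) (k : ℕ) : DD t a k ∈ orb t a :=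
  subset_closure ⟨(k : ℤ), by simp [DD]⟩

/-- The orbit of `a` has a nontrivial relation with coefficients `-1`, `0`, `1`. -/
def GoodPair (t a : G) : Prop :=
  ∃ Xs Ys : List ℕ, Xs.Nodup ∧ Ys.Nodup ∧ (¬ ∀ k, k ∈ Xs ↔ k ∈ Ys) ∧
    (Xs.map (DD t a)).prod * ((Ys.map (DD t a)).prod)⁻¹ ∈ ⁅orb t a, orb t a⁆

/-- All pairs are good. -/
def AllGood (G : Type*) [Group G] : Prop := ∀ t a : G, GoodPair t a

section hom

variable {G' : Type*} [Group G'] (f : G →* G')

lemma map_DD (t a : G) (k : ℕ) : f (DD t a k) = DD (f t) (f a) k := by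
  simp [DD]

lemma map_orb (t a : G) : (orb t a).map f = orb (f t) (f a) := by
  unfold orb
  rw [MonoidHom.map_closure, ← Set.range_comp]
  congr 2
  funext i
  simp

lemma map_prods (t a : G) (Xs Ys : List ℕ) :
    f ((Xs.map (DD t a)).prod * ((Ys.map (DD t a)).prod)⁻¹) =
      (Xs.map (DD (f t) (f a))).prod * ((Ys.map (DD (f t) (f a))).prod)⁻¹ := by
  rw [map_mul, map_inv, map_list_prod, map_list_prod, List.map_map, List.map_map]
  have : (⇑f ∘ DD t a) = DD (f t) (f a) := funext fun k => map_DD f t a k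
  rw [this]

lemma GoodPair.map {t a : G} (h : GoodPair t a) : GoodPair (f t) (f a) := by
  obtain ⟨Xs, Ys, hX, hY, hne, hm⟩ := h
  refine ⟨Xs, Ys, hX, hY, hne, ?_⟩
  rw [← map_prods, ← map_orb, ← map_commutator]
  exact mem_map_of_mem f hm

lemma GoodPair.of_map (hf : Function.Injective f) {t a : G} (h : GoodPair (f t) (f a)) :
    GoodPair t a := by
  obtain ⟨Xs, Ys, hX, hY, hne, hm⟩ := h
  refine ⟨Xs, Ys, hX, hY, hne, ?_⟩
  rw [← map_prods, ← map_orb, ← map_commutator] at hm
  exact (Subgroup.mem_map_iff_mem hf).1 hm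

end hom

lemma AllGood.subgroup (h : AllGood G) (H : Subgroup G) : AllGood H := fun t a =>
  GoodPair.of_map H.subtype H.subtype_injective (h _ _)

lemma AllGood.of_surjective {G' : Type*} [Group G'] (h : AllGood G) {f : G →* G'}
    (hf : Function.Surjective f) : AllGood G' := by
  intro t a
  obtain ⟨t, rfl⟩ := hf t
  obtain ⟨a, rfl⟩ := hf a
  exact (h t a).map f

lemma orb_le {t a : G} {N : Subgroup G} [hN : N.Normal] (ha : a ∈ N) : orb t a ≤ N := by
  unfold orb
  rw [closure_le]
  rintro _ ⟨i, rfl⟩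
  exact hN.conj_mem a ha _

lemma coeff_sum_X_pow (l : List ℕ) (k : ℕ) :
    ((l.map fun i => (X ^ i : ℤ[X])).sum).coeff k = l.count k := by
  induction l with
  | nil => simp
  | cons i l ih =>
    rw [List.map_cons, List.sum_cons, coeff_add, ih, coeff_X_pow, List.count_cons]
    push_cast
    by_cases h : k = i
    · subst h; simp; ring
    · have : ¬ i = k := fun e => h e.symm
      simp [h, this]

/-- A good pair gives a flat polynomial that annihilates. -/
lemma GoodPair.exists_flat {t a : G} (h : GoodPair t a) (N : Subgroup G) [hN : N.Normal]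
    (ha : a ∈ N) : ∃ P : ℤ[X], Flat P ∧ aeval (act N t) P (cls N a) = 0 := by
  obtain ⟨Xs, Ys, hX, hY, hne, hm⟩ := h
  refine ⟨(Xs.map fun i => X ^ i).sum - (Ys.map fun i => X ^ i).sum, ⟨?_, ?_⟩, ?_⟩
  · intro h0
    apply hne
    intro k
    have h1 := congrArg (fun P => coeff P k) h0
    simp only [coeff_sub, coeff_sum_X_pow, coeff_zero] at h1
    rw [← List.count_pos_iff, ← List.count_pos_iff]
    omega
  · intro i
    rw [coeff_sub, coeff_sum_X_pow, coeff_sum_X_pow]
    have h4 := List.nodup_iff_count_le_one.1 hX i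
    have h5 := List.nodup_iff_count_le_one.1 hY i
    rw [abs_le]
    constructor <;> omega
  · have hD : ∀ k, DD t a k ∈ N := fun k => hN.conj_mem a ha _
    have h1 : ∀ l : List ℕ, aeval (act N t) (l.map fun i => (X ^ i : ℤ[X])).sum (cls N a) =
        cls N (l.map (DD t a)).prod := by
      intro l
      rw [cls_prod N (fun x hx => by obtain ⟨k, -, rfl⟩ := List.mem_map.1 hx; exact hD k)]
      induction l with
      | nil => simp
      | cons k l ih =>
        rw [List.map_cons, List.sum_cons, map_add, List.map_cons, List.map_cons, List.sum_cons,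
          ← ih, aeval_X_pow, ← map_pow]
        show act N (t ^ k) (cls N a) + _ = _
        rw [act_cls]
        rfl
    rw [map_sub]
    show aeval (act N t) _ (cls N a) - aeval (act N t) _ (cls N a) = 0
    rw [h1, h1, sub_eq_zero, cls_eq_iff N]
    · exact commutator_mono (orb_le ha) (orb_le ha) hm
    · exact Subgroup.list_prod_mem _ fun x hx => by
        obtain ⟨k, -, rfl⟩ := List.mem_map.1 hx; exact hD k
    · exact Subgroup.list_prod_mem _ fun x hx => by
        obtain ⟨k, -, rfl⟩ := List.mem_map.1 hx; exact hD k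

end Pool.Agent.Helper87.SSP2
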