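import Pool.Agent.Helper87.SSP2.Init
import Pool.Agent.Helper87.SSP.Final

/-!
# Nonuniform NP-hardness
-/

open Function Turing Computability
open Pool.Agent.Helper91.PolyTime Pool.Agent.Helper91.Reduction Pool.Agent.Helper91.Verifier
open Pool.Agent.Helper87.NP
open Pool.Agent.Helper86.XC (Cover exists_cover)

namespace Pool.Agent.Helper87.SSP2

open Pool.Agent.Helper87.SSP (Word ev ev_append ev_winv winv ev_nil ev_flatten VirtNilp encodeWord
  encodeWords encodeWords_cons decWords decWords_encode unary InP WP SSP inc cover_iff_inc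
  ptf_inc tm2_of_ptf_pair ptf_winv ptf_encodeWords ptf_decWords ssp_inNP exists_word)

/-- Polynomial-time many-one reducibility with polynomially bounded advice: `x ∈ A` if and only if
`f (x, adv |x|) ∈ B`, where `f` is computable in polynomial time and the advice string `adv n`
has length polynomial in `n`. -/
def ReducesAdv (A B : Set (List Bool)) : Prop :=
  ∃ (adv : ℕ → List Bool) (p : Polynomial ℕ) (f : List Bool × List Bool → List Bool),
    (∀ n, (adv n).length ≤ p.eval n) ∧
    Nonempty (TM2ComputableInPolyTime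
      (encodingProd (encodingList Bool) (encodingList Bool)).encode
      (id : List Bool → List Bool) f) ∧
    ∀ x, x ∈ A ↔ f (x, adv x.length) ∈ B

variable {g : ℕ}

/-! ### The gadget in terms of words -/

/-- The words of the products of the shifts. -/
def wPP (Q : ℕ → Word g) (i : ℕ) : Word g := (List.range i).flatMap Q

/-- The word of a set. -/
def wsetEl (X : ℕ → ℕ → Word g) (m : ℕ) (A : ℕ → ℕ → Bool) (r : ℕ) : Word g :=
  ((List.range m).filter fun i => A r i).flatMap (X r)

/-- The erasing word of a pair. -/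
def weraseEl (X : ℕ → ℕ → Word g) (Q : ℕ → Word g) (p : ℕ × ℕ) : Word g :=
  winv (wPP Q p.1) ++ (winv (X p.2 p.1) ++ (wPP Q p.1 ++ Q p.1))

/-- The list of the words. -/
def wgList (X : ℕ → ℕ → Word g) (Q : ℕ → Word g) (n m : ℕ) (A : ℕ → ℕ → Bool) : List (Word g) :=
  (List.range n).map (wsetEl X m A) ++ (pairs n m).map (weraseEl X Q)

section ev

variable {G : Type*} [Group G] (s : Fin g → G)

lemma ev_flatMap {ι : Type*} (l : List ι) (f : ι → Word g) :
    ev s (l.flatMap f) = (l.map fun i => ev s (f i)).prod := by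
  rw [List.flatMap_def, ev_flatten, List.map_map]
  rfl

lemma ev_wPP (Q : ℕ → Word g) (i : ℕ) : ev s (wPP Q i) = PP (fun i => ev s (Q i)) i :=
  ev_flatMap s _ _

lemma map_wgList (X : ℕ → ℕ → Word g) (Q : ℕ → Word g) (n m : ℕ) (A : ℕ → ℕ → Bool) :
    (wgList X Q n m A).map (ev s) =
      gList (fun r i => ev s (X r i)) (fun i => ev s (Q i)) n m A := by
  unfold wgList gList
  rw [List.map_append, List.map_map, List.map_map]
  congr 2
  · funext r
    exact ev_flatMap s _ _
  · funext p
    show ev s (weraseEl X Q p) = _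
    rw [weraseEl, ev_append, ev_append, ev_append, ev_winv, ev_winv, ev_wPP, eraseEl]

end ev

lemma wPP_congr {Q Q' : ℕ → Word g} {m : ℕ} (h : ∀ i < m, Q i = Q' i) {i : ℕ} (hi : i ≤ m) :
    wPP Q i = wPP Q' i := by
  unfold wPP
  rw [List.flatMap_def, List.flatMap_def]
  congr 1
  exact List.map_congr_left fun k hk => h k ((List.mem_range.1 hk).trans_le hi)

lemma wgList_congr {X X' : ℕ → ℕ → Word g} {Q Q' : ℕ → Word g} {n m : ℕ}
    (hX : ∀ r i, r < n → i < m → X r i = X' r i) (hQ : ∀ i < m, Q i = Q' i)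
    (A : ℕ → ℕ → Bool) : wgList X Q n m A = wgList X' Q' n m A := by
  unfold wgList
  congr 1
  · refine List.map_congr_left fun r hr => ?_
    unfold wsetEl
    rw [List.flatMap_def, List.flatMap_def]
    congr 1
    exact List.map_congr_left fun i hi => hX r i (List.mem_range.1 hr)
      (List.mem_range.1 (List.mem_filter.1 hi).1)
  · refine List.map_congr_left fun p hp => ?_
    obtain ⟨h1, h2⟩ := mem_pairs.1 hp
    unfold weraseEl
    rw [wPP_congr hQ h1.le, hX _ _ h2 h1, hQ _ h1]

/-! ### The advice -/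

/-- The list of the words of the advice. -/
def advL (N : ℕ) (X : ℕ → ℕ → Word g) (Q : ℕ → Word g) (W : List (Word g)) : List (Word g) :=
  ((List.range (N * N)).map fun k => X (k / N) (k % N)) ++ ((List.range N).map Q ++ W)

/-- Reading a cell. -/
def rdX (N : ℕ) (L : List (Word g)) (r i : ℕ) : Word g := (L[r * N + i]?).getD []

/-- Reading a shift. -/
def rdQ (N : ℕ) (L : List (Word g)) (i : ℕ) : Word g := (L[N * N + i]?).getD []

lemma rdX_advL {N : ℕ} (X : ℕ → ℕ → Word g) (Q : ℕ → Word g) (W : List (Word g)) {r i : ℕ}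
    (hr : r < N) (hi : i < N) : rdX N (advL N X Q W) r i = X r i := by
  have h1 : r * N + i < N * N := by
    have : (r + 1) * N ≤ N * N := Nat.mul_le_mul_right _ hr
    have e : (r + 1) * N = r * N + N := by ring
    omega
  unfold rdX advL
  rw [List.getElem?_append_left (by simpa using h1), List.getElem?_map,
    List.getElem?_range h1]
  simp only [Option.map_some, Option.getD_some]
  rw [mul_comm r N, Nat.mul_add_div (by omega), Nat.div_eq_of_lt hi, add_zero,
    Nat.mul_add_mod, Nat.mod_eq_of_lt hi]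

lemma rdQ_advL {N : ℕ} (X : ℕ → ℕ → Word g) (Q : ℕ → Word g) (W : List (Word g)) {i : ℕ}
    (hi : i < N) : rdQ N (advL N X Q W) i = Q i := by
  unfold rdQ advL
  rw [List.getElem?_append_right (by simp), List.length_map, List.length_range,
    Nat.add_sub_cancel_left, List.getElem?_append_left (by simpa using hi), List.getElem?_map,
    List.getElem?_range hi]
  rfl

lemma drop_advL (N : ℕ) (X : ℕ → ℕ → Word g) (Q : ℕ → Word g) (W : List (Word g)) :
    (advL N X Q W).drop (N * N + N) = W := by
  unfold advL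
  rw [← List.append_assoc]
  exact List.drop_left' (by simp)

/-- The instance made from the advice. -/
def mk (N n m : ℕ) (A : ℕ → ℕ → Bool) (L : List (Word g)) : List (Word g) :=
  wPP (rdQ N L) m :: (L.drop (N * N + N) ++ wgList (rdX N L) (rdQ N L) n m A)

lemma mk_advL {N n m : ℕ} (hn : n ≤ N) (hm : m ≤ N) (A : ℕ → ℕ → Bool) (X : ℕ → ℕ → Word g)
    (Q : ℕ → Word g) (W : List (Word g)) :
    mk N n m A (advL N X Q W) = wPP Q m :: (W ++ wgList X Q n m A) := by
  unfold mk
  rw [drop_advL, wgList_congr (X' := X) (Q' := Q)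
    (fun r i hr hi => rdX_advL X Q W (hr.trans_le hn) (hi.trans_le hm))
    (fun i hi => rdQ_advL X Q W (hi.trans_le hm)),
    wPP_congr (Q' := Q) (m := m) (fun i hi => rdQ_advL X Q W (hi.trans_le hm)) le_rfl]

/-! ### Lengths -/

lemma code_le (p : Fin g × Bool) : Pool.Agent.Helper87.SSP.code p ≤ 2 * g := by
  have := p.1.2
  unfold Pool.Agent.Helper87.SSP.code
  split_ifs <;> omega

lemma length_encodeWord (w : Word g) : (encodeWord w).length ≤ w.length * (2 * g + 1) + 1 := by
  unfold encodeWord unary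
  rw [List.length_append]
  have h : (w.flatMap fun p => List.replicate (Pool.Agent.Helper87.SSP.code p) true ++
      [false]).length ≤ w.length * (2 * g + 1) := by
    induction w with
    | nil => simp
    | cons p w ih =>
      rw [List.flatMap_cons, List.length_append, List.length_cons, add_mul, one_mul]
      have := code_le p
      have h1 : (List.replicate (Pool.Agent.Helper87.SSP.code p) true ++ [false]).length =
          Pool.Agent.Helper87.SSP.code p + 1 := by simp
      rw [h1]
      omega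
  have h2 : (List.replicate 0 true ++ [false]).length = 1 := by simp
  rw [h2]
  omega

lemma length_encodeWords {ℓ : ℕ} {L : List (Word g)} (h : ∀ w ∈ L, w.length ≤ ℓ) :
    (encodeWords L).length ≤ L.length * (ℓ * (2 * g + 1) + 1) := by
  unfold encodeWords
  induction L with
  | nil => simp
  | cons w L ih =>
    rw [List.flatMap_cons, List.length_append, List.length_cons, add_mul, one_mul]
    have h1 := length_encodeWord w
    have h2 := Nat.mul_le_mul_right (2 * g + 1) (h w List.mem_cons_self)
    have h3 := ih fun v hv => h v (List.mem_cons_of_mem _ hv)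
    omega

/-! ### Polynomial time -/

section ptime

variable {α : Type*} [PEnc α]

lemma ptf_wPP {Q : α → ℕ → Word g} {i : α → ℕ} (hQ : PTF (fun p : α × ℕ => Q p.1 p.2))
    (hi : PTF i) : PTF (fun a => wPP (Q a) (i a)) :=
  PTF.flatMap (f := Q) (PTF.range hi) hQ

lemma ptf_pairs2 {n m : α → ℕ} (hn : PTF n) (hm : PTF m) : PTF (fun a => pairs (n a) (m a)) := by
  unfold pairs
  refine PTF.flatMap (PTF.range hm) ?_
  exact PTF.map (α := α × ℕ) (f := fun p r => (p.2, r)) (PTF.range (hn.comp PTF.id.fst))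
    (PTF.pair PTF.id.fst.snd PTF.id.snd)

lemma ptf_wgList {X : α → ℕ → ℕ → Word g} {Q : α → ℕ → Word g} {n m : α → ℕ}
    {A : α → ℕ → ℕ → Bool} (hX : PTF (fun p : (α × ℕ) × ℕ => X p.1.1 p.1.2 p.2))
    (hQ : PTF (fun p : α × ℕ => Q p.1 p.2)) (hn : PTF n) (hm : PTF m)
    (hA : PTF (fun p : (α × ℕ) × ℕ => A p.1.1 p.1.2 p.2)) :
    PTF (fun a => wgList (X a) (Q a) (n a) (m a) (A a)) := by
  unfold wgList
  refine PTF.append ?_ ?_
  · refine PTF.map (f := fun a r => wsetEl (X a) (m a) (A a) r) (PTF.range hn) ?_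
    unfold wsetEl
    refine PTF.flatMap (α := α × ℕ) (f := fun p i => X p.1 p.2 i)
      (PTF.filter (f := fun (p : α × ℕ) i => A p.1 p.2 i) (PTF.range (hm.comp PTF.id.fst)) ?_) ?_
    · exact hA
    · exact hX
  · refine PTF.map (f := fun a p => weraseEl (X a) (Q a) p) (ptf_pairs2 hn hm) ?_
    unfold weraseEl
    have h1 : PTF (fun p : α × (ℕ × ℕ) => wPP (Q p.1) p.2.1) :=
      ptf_wPP (α := α × (ℕ × ℕ)) (Q := fun p => Q p.1)
        (hQ.comp (PTF.pair PTF.id.fst.fst PTF.id.snd)) PTF.id.snd.fst
    have h2 : PTF (fun p : α × (ℕ × ℕ) => X p.1 p.2.2 p.2.1) :=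
      hX.comp (PTF.pair (PTF.pair PTF.id.fst PTF.id.snd.snd) PTF.id.snd.fst)
    have h3 : PTF (fun p : α × (ℕ × ℕ) => Q p.1 p.2.1) :=
      hQ.comp (PTF.pair PTF.id.fst PTF.id.snd.fst)
    exact PTF.append (ptf_winv h1) (PTF.append (ptf_winv h2) (PTF.append h1 h3))

lemma ptf_rdX {N : α → ℕ} {L : α → List (Word g)} {r i : α → ℕ} (hN : PTF N) (hL : PTF L)
    (hr : PTF r) (hi : PTF i) : PTF (fun a => rdX (N a) (L a) (r a) (i a)) :=
  ptf_getD (PTF.getElem? (PTF.add (PTF.mul hr hN) hi) hL) (PTF.const [])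

lemma ptf_rdQ {N : α → ℕ} {L : α → List (Word g)} {i : α → ℕ} (hN : PTF N) (hL : PTF L)
    (hi : PTF i) : PTF (fun a => rdQ (N a) (L a) (i a)) :=
  ptf_getD (PTF.getElem? (PTF.add (PTF.mul hN hN) hi) hL) (PTF.const [])

lemma ptf_mk {N n m : α → ℕ} {A : α → ℕ → ℕ → Bool} {L : α → List (Word g)} (hN : PTF N)
    (hn : PTF n) (hm : PTF m) (hA : PTF (fun p : (α × ℕ) × ℕ => A p.1.1 p.1.2 p.2))
    (hL : PTF L) : PTF (fun a => mk (N a) (n a) (m a) (A a) (L a)) := by
  unfold mk
  have hQ : PTF (fun p : α × ℕ => rdQ (N p.1) (L p.1) p.2) :=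
    ptf_rdQ (hN.comp PTF.id.fst) (hL.comp PTF.id.fst) PTF.id.snd
  have hX : PTF (fun p : (α × ℕ) × ℕ => rdX (N p.1.1) (L p.1.1) p.1.2 p.2) :=
    ptf_rdX (hN.comp PTF.id.fst.fst) (hL.comp PTF.id.fst.fst) PTF.id.fst.snd PTF.id.snd
  refine PTF.cons (ptf_wPP (Q := fun a => rdQ (N a) (L a)) hQ hm) (PTF.append
    (PTF.drop (PTF.add (PTF.mul hN hN) hN) hL) ?_)
  exact ptf_wgList (X := fun a => rdX (N a) (L a)) (Q := fun a => rdQ (N a) (L a)) hX hQ hn hm hA

end ptime

lemma length_enc_boolList (x : List Bool) : (enc x).length = 3 * x.length := by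
  induction x with
  | nil => simp [enc_nil]
  | cons b x ih =>
    rw [length_enc_cons, List.length_cons, ih, enc_bool]
    simp only [List.length_cons, List.length_nil]
    ring

/-- **Nonuniform hardness.** -/
theorem ssp_hard_adv {G : Type*} [Group G] {s : Fin g → G} {t a : G} (hb : ¬ GoodPair t a)
    {τ α : Word g} (hτ : ev s τ = t) (hα : ev s α = a) {d : ℕ} (hd : KK t a d = ⊥)
    (L : Set (List Bool)) (hL : InNP L) : ReducesAdv L (SSP s) := by
  classical
  obtain ⟨p, R, hR, hRL⟩ := hL
  obtain ⟨E, hE, hdec, S, U, hS, hU, hcov⟩ := exists_cover p R hR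
  obtain ⟨pS, hpS⟩ := hS.length_le
  obtain ⟨pU, hpU⟩ := hU.length_le
  obtain ⟨P, hP⟩ := exists_words hτ hα hb hd
  choose X Q W hX hQ hW hWl hex using hP
  set qN : Polynomial ℕ := (pS + pU).comp (3 * Polynomial.X) with hqN
  have hSN : ∀ x, (S x).length ≤ qN.eval x.length := by
    intro x
    have h1 := (length_le_enc (S x)).trans (hpS x)
    rw [length_enc_boolList] at h1
    rw [hqN]
    simp only [Polynomial.eval_comp, Polynomial.eval_add, Polynomial.eval_mul, Polynomial.eval_X,
      Polynomial.eval_ofNat]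
    omega
  have hUN : ∀ x, (U x).length ≤ qN.eval x.length := by
    intro x
    have h1 := (length_le_enc (U x)).trans (hpU x)
    rw [length_enc_boolList] at h1
    rw [hqN]
    simp only [Polynomial.eval_comp, Polynomial.eval_add, Polynomial.eval_mul, Polynomial.eval_X,
      Polynomial.eval_ofNat]
    omega
  refine ⟨fun n => encodeWords (advL (qN.eval n) (X (qN.eval n)) (Q (qN.eval n))
      (W (qN.eval n))),
    ((Polynomial.X * Polynomial.X + Polynomial.X + P) * (P * Polynomial.C (2 * g + 1) + 1)).comp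
      qN,
    fun z => encodeWords (mk (qN.eval z.1.length) (S z.1).length (U z.1).length
      (inc (S z.1) (U z.1)) (decWords g z.2)), ?_, ?_, ?_⟩
  · intro n
    set N := qN.eval n with hN
    have h1 : ∀ w ∈ advL N (X N) (Q N) (W N), w.length ≤ P.eval N := by
      intro w hw
      unfold advL at hw
      rcases List.mem_append.1 hw with hw | hw
      · obtain ⟨k, hk, rfl⟩ := List.mem_map.1 hw
        have hk' := List.mem_range.1 hk
        have hN0 : 0 < N := by
          rcases Nat.eq_zero_or_pos N with h | h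
          · rw [h] at hk'; omega
          · exact h
        exact hX N _ _ (Nat.div_lt_of_lt_mul hk') (Nat.mod_lt _ hN0)
      · rcases List.mem_append.1 hw with hw | hw
        · obtain ⟨k, hk, rfl⟩ := List.mem_map.1 hw
          exact hQ N _ (List.mem_range.1 hk)
        · exact hW N w hw
    have h2 := length_encodeWords h1
    have h3 : (advL N (X N) (Q N) (W N)).length ≤ N * N + N + P.eval N := by
      unfold advL
      have := hWl N
      simp only [List.length_append, List.length_map, List.length_range]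
      omega
    refine h2.trans ((Nat.mul_le_mul_right _ h3).trans_eq ?_)
    simp only [Polynomial.eval_comp, Polynomial.eval_add, Polynomial.eval_mul, Polynomial.eval_X,
      Polynomial.eval_C, Polynomial.eval_one]
    rw [← hN]
  · refine tm2_of_ptf_pair (PTF.strOfList (ptf_encodeWords (ptf_mk ?_ ?_ ?_ ?_ ?_)))
    · exact PTF.polyEval qN (PTF.length PTF.id.fst)
    · exact PTF.length (hS.comp PTF.id.fst)
    · exact PTF.length (hU.comp PTF.id.fst)
    · exact ptf_inc (hS.comp PTF.id.fst.fst.fst) (hU.comp PTF.id.fst.fst.fst) PTF.id.fst.snd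
        PTF.id.snd
    · exact ptf_decWords PTF.id.snd
  · intro x
    simp only
    rw [decWords_encode, mk_advL (hSN x) (hUN x), hRL, hcov, cover_iff_inc]
    set N := qN.eval x.length with hN
    have key := hex N (S x).length (U x).length (hSN x) (hUN x) (inc (S x) (U x))
    have hmap := map_wgList s (X N) (Q N) (S x).length (U x).length (inc (S x) (U x))
    show Cov (S x).length (U x).length (inc (S x) (U x)) ↔ _
    rw [← key]
    constructor
    · rintro ⟨l, hl, he⟩
      rw [← hmap, ← List.map_append] at hl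
      obtain ⟨l', h1, rfl⟩ := List.sublist_map_iff.1 hl
      exact ⟨_, _, rfl, l', h1, by rw [he, ev_wPP]⟩
    · rintro ⟨w, l, h1, l', h2, h3⟩
      rw [← encodeWords_cons] at h1
      have h4 := decWords_encode (wPP (Q N) (U x).length ::
        (W N ++ wgList (X N) (Q N) (S x).length (U x).length (inc (S x) (U x))))
      rw [h1, decWords_encode] at h4
      obtain ⟨rfl, rfl⟩ : w = _ ∧ l = _ := by simpa using h4
      refine ⟨l'.map (ev s), ?_, by rw [h3, ev_wPP]⟩
      rw [← hmap, ← List.map_append]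
      exact h2.map _

/-- **Main theorem.** -/
theorem main {G : Type*} [Group G] {g : ℕ} (s : Fin g → G)
    (hs : Subgroup.closure (Set.range s) = ⊤) (H : Subgroup G) (hfg : H.FG)
    (hsol : Group.IsSolvable H) (hH : ¬ VirtNilp H) :
    (InP (WP s) → InNP (SSP s)) ∧ ∀ L, InNP L → ReducesAdv L (SSP s) := by
  obtain ⟨t, a, d, hb, hd⟩ := exists_bad H hfg hsol hH
  obtain ⟨τ, hτ⟩ := exists_word hs t
  obtain ⟨α, hα⟩ := exists_word hs a
  refine ⟨fun hWP => ssp_inNP hWP (w₀ := α) ?_, fun L hL => ssp_hard_adv hb hτ hα hd L hL⟩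
  rw [hα]
  rintro rfl
  refine hb ⟨[0], [], by simp, by simp, ?_, ?_⟩
  · intro h
    have := (h 0).1 (by simp)
    simp at this
  · simp [DD]

end Pool.Agent.Helper87.SSP2
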