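import Mathlib

/-!
# Classes in the abelianization of a subgroup
-/

namespace Pool.Agent.Helper87.SSP2

open Subgroup

variable {G : Type*} [Group G]

/-- The abelianization of a subgroup, written additively. -/
abbrev AbS (N : Subgroup G) : Type _ := Additive (Abelianization N)

open Classical in
/-- The class of an element of a subgroup in the abelianization. -/
noncomputable def cls (N : Subgroup G) (x : G) : AbS N :=
  if hx : x ∈ N then Additive.ofMul (Abelianization.of ⟨x, hx⟩) else 0

variable (N : Subgroup G)

lemma cls_of_mem {x : G} (hx : x ∈ N) :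
    cls N x = Additive.ofMul (Abelianization.of (⟨x, hx⟩ : N)) := dif_pos hx

lemma cls_of_notMem {x : G} (hx : x ∉ N) : cls N x = 0 := dif_neg hx

lemma cls_one : cls N 1 = 0 := by
  rw [cls_of_mem N (one_mem N)]; rfl

lemma cls_mul {x y : G} (hx : x ∈ N) (hy : y ∈ N) : cls N (x * y) = cls N x + cls N y := by
  rw [cls_of_mem N (mul_mem hx hy), cls_of_mem N hx, cls_of_mem N hy]; rfl

lemma cls_inv (x : G) : cls N x⁻¹ = -cls N x := by
  by_cases hx : x ∈ N
  · rw [cls_of_mem N (inv_mem hx), cls_of_mem N hx]; rfl
  · rw [cls_of_notMem N hx, cls_of_notMem N (fun h => hx (inv_mem_iff.1 h)), neg_zero]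

lemma exists_cls (a : AbS N) : ∃ x ∈ N, cls N x = a := by
  induction a using Additive.rec with
  | ofMul a =>
    induction a using QuotientGroup.induction_on with
    | H x => exact ⟨x, x.2, cls_of_mem N x.2⟩

lemma cls_eq_zero_iff {x : G} (hx : x ∈ N) : cls N x = 0 ↔ x ∈ ⁅N, N⁆ := by
  rw [cls_of_mem N hx]
  have h1 : Additive.ofMul (Abelianization.of (⟨x, hx⟩ : N)) = 0 ↔
    (Abelianization.of (⟨x, hx⟩ : N)) = 1 := Iff.rfl
  rw [h1, ← MonoidHom.mem_ker, Abelianization.ker_of, ← Subgroup.map_subtype_commutator]
  simp [Subgroup.mem_map, hx]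

lemma cls_eq_iff {x y : G} (hx : x ∈ N) (hy : y ∈ N) : cls N x = cls N y ↔ x * y⁻¹ ∈ ⁅N, N⁆ := by
  rw [← cls_eq_zero_iff N (mul_mem hx (inv_mem hy)), cls_mul N hx (inv_mem hy), cls_inv,
    ← sub_eq_add_neg, sub_eq_zero]

lemma cls_prod {l : List G} (hl : ∀ x ∈ l, x ∈ N) : cls N l.prod = (l.map (cls N)).sum := by
  induction l with
  | nil => simp [cls_one]
  | cons x l ih =>
    rw [List.prod_cons, List.map_cons, List.sum_cons, cls_mul N (hl x List.mem_cons_self)
      (Subgroup.list_prod_mem _ fun y hy => hl y (List.mem_cons_of_mem _ hy)),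
      ih fun y hy => hl y (List.mem_cons_of_mem _ hy)]

/-! ### The action of the group on the abelianization of a normal subgroup -/

variable [hN : N.Normal]

/-- The action by conjugation. -/
def act : G →* AddMonoid.End (AbS N) where
  toFun g := MonoidHom.toAdditive (Abelianization.map (MulAut.conjNormal (H := N) g).toMonoidHom)
  map_one' := by
    ext x
    induction x using Additive.rec with
    | ofMul x =>
      induction x using QuotientGroup.induction_on with
      | H x =>
        show Additive.ofMul (Abelianization.of (MulAut.conjNormal (1 : G) x)) = _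
        rw [map_one]; rfl
  map_mul' g h := by
    ext x
    induction x using Additive.rec with
    | ofMul x =>
      induction x using QuotientGroup.induction_on with
      | H x =>
        show Additive.ofMul (Abelianization.of (MulAut.conjNormal (g * h : G) x)) = _
        rw [map_mul]; rfl

lemma act_cls (g x : G) : act N g (cls N x) = cls N (g * x * g⁻¹) := by
  by_cases hx : x ∈ N
  · rw [cls_of_mem N hx, cls_of_mem N (hN.conj_mem x hx g)]
    show Additive.ofMul (Abelianization.of (MulAut.conjNormal g ⟨x, hx⟩)) = _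
    rfl
  · rw [cls_of_notMem N hx, cls_of_notMem N, map_zero]
    intro h
    apply hx
    have := hN.conj_mem _ h g⁻¹
    simpa [mul_assoc] using this

lemma act_of_mem {x : G} (hx : x ∈ N) : act N x = 1 := by
  refine AddMonoidHom.ext fun a => ?_
  obtain ⟨y, hy, rfl⟩ := exists_cls N a
  show act N x (cls N y) = cls N y
  rw [act_cls, cls_eq_iff N (hN.conj_mem y hy x) hy]
  exact commutator_mem_commutator hx hy

lemma act_commute {M : Subgroup G} (hc : ⁅M, (⊤ : Subgroup G)⁆ ≤ N) {m : G} (hm : m ∈ M) (g : G) :
    Commute (act N m) (act N g) := by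
  have h1 : act N (m * g * m⁻¹ * g⁻¹) = 1 :=
    act_of_mem N (hc (commutator_mem_commutator hm (mem_top g)))
  have h2 : m * g = (m * g * m⁻¹ * g⁻¹) * (g * m) := by group
  show act N m * act N g = act N g * act N m
  rw [← map_mul, h2, map_mul, h1, one_mul, map_mul]

end Pool.Agent.Helper87.SSP2
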