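import Pool.Agent.Helper87.SSP2.Gad

/-!
# The two kinds of gadgets
-/

namespace Pool.Agent.Helper87.SSP2

open Subgroup Pool.Agent.Helper87.SSP
open scoped commutatorElement

variable {G : Type*} [Group G]

/-- The derived series of the orbit subgroup. -/
def KK (t a : G) : ℕ → Subgroup G
  | 0 => orb t a
  | j + 1 => ⁅KK t a j, KK t a j⁆

lemma KK_anti (t a : G) {i j : ℕ} (h : i ≤ j) : KK t a j ≤ KK t a i := by
  induction h with
  | refl => exact le_rfl
  | step _ ih => exact (commutator_le_self _).trans ih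

lemma normalizer_le {t a h : G} (h0 : h ∈ normalizer (KK t a 0 : Set G)) (j : ℕ) :
    h ∈ normalizer (KK t a j : Set G) := by
  induction j with
  | zero => exact h0
  | succ j ih =>
    rw [mem_normalizer_iff_map_conj_eq] at ih ⊢
    rw [KK, map_commutator, ih]

lemma t_mem_normalizer (t a : G) (j : ℕ) : t ∈ normalizer (KK t a j : Set G) := by
  refine normalizer_le ?_ j
  rw [mem_normalizer_iff_map_conj_eq]
  show (orb t a).map (MulAut.conj t : G →* G) = orb t a
  rw [map_orb]
  unfold orb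
  congr 1
  have h : (fun i : ℤ => ((MulAut.conj t : G →* G) t) ^ i * ((MulAut.conj t : G →* G) a) *
      (((MulAut.conj t : G →* G) t) ^ i)⁻¹) = (fun i : ℤ => t ^ i * a * (t ^ i)⁻¹) ∘
        (fun i : ℤ => i + 1) := by
    funext i
    simp only [MonoidHom.coe_coe, MulAut.conj_apply, Function.comp_apply]
    rw [zpow_add, zpow_one]
    group
  rw [h]
  exact (Equiv.addRight (1 : ℤ)).surjective.range_comp _

lemma a_mem (t a : G) : a ∈ KK t a 0 := subset_closure ⟨0, by simp⟩

lemma a_mem_normalizer (t a : G) (j : ℕ) : a ∈ normalizer (KK t a j : Set G) :=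
  normalizer_le (le_normalizer (a_mem t a)) j

lemma conj_mem_KK {t a : G} {j : ℕ} {g x : G} (hg : g ∈ normalizer (KK t a j : Set G))
    (hx : x ∈ KK t a j) : g * x * g⁻¹ ∈ KK t a j := (mem_normalizer_iff.1 hg x).1 hx

lemma DD_mem (t a : G) (k : ℕ) : DD t a k ∈ KK t a 0 := DD_mem_orb t a k

/-! ### Bad pairs -/

lemma bad_sum {t a : G} (hb : ¬ GoodPair t a) {Xs Ys : List ℕ} (hX : Xs.Nodup) (hY : Ys.Nodup)
    (h : (Xs.map fun k => cls (KK t a 0) (DD t a k)).sum =
      (Ys.map fun k => cls (KK t a 0) (DD t a k)).sum) (k : ℕ) : k ∈ Xs ↔ k ∈ Ys := by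
  by_contra hne
  refine hb ⟨Xs, Ys, hX, hY, fun h => hne (h k), ?_⟩
  have h1 : ∀ l : List ℕ, ∀ x ∈ l.map (DD t a), x ∈ KK t a 0 := by
    intro l x hx
    obtain ⟨k, -, rfl⟩ := List.mem_map.1 hx
    exact DD_mem t a k
  have h2 := cls_prod (KK t a 0) (h1 Xs)
  have h3 := cls_prod (KK t a 0) (h1 Ys)
  rw [List.map_map] at h2 h3
  exact (cls_eq_iff (KK t a 0) (Subgroup.list_prod_mem _ (h1 Xs))
    (Subgroup.list_prod_mem _ (h1 Ys))).1 (h2.trans (h.trans h3.symm))

lemma bad_pow {t a : G} (hb : ¬ GoodPair t a) {k : ℕ} (h : t ^ k ∈ KK t a 0) : k = 0 := by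
  have h1 := bad_sum hb (Xs := [k]) (Ys := [0]) (by simp) (by simp) (by
    simp only [List.map_cons, List.map_nil, List.sum_cons, List.sum_nil, add_zero]
    rw [cls_eq_iff _ (DD_mem t a k) (DD_mem t a 0)]
    have e : DD t a k * (DD t a 0)⁻¹ = ⁅t ^ k, a⁆ := by
      rw [commutatorElement_def, DD, DD]; group
    rw [e]
    exact commutator_mem_commutator h (a_mem t a)) k
  simpa using h1

/-! ### The gadget of the top level -/

/-- The cells of the top level. -/
def X0 (t a : G) (N r i : ℕ) : G := DD t a ((r * N + i) * N + i)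

lemma PP_const (t : G) (i : ℕ) : PP (fun _ => t) i = t ^ i := by
  induction i with
  | zero => simp [PP]
  | succ i ih => rw [PP_succ, ih, pow_succ]

lemma DD_add (t a : G) (k i : ℕ) : DD t a (k + i) = t ^ i * DD t a k * (t ^ i)⁻¹ := by
  unfold DD
  rw [add_comm, pow_add]
  group

lemma eraseEl_X0 (t a : G) (N : ℕ) (p : ℕ × ℕ) :
    eraseEl (X0 t a N) (fun _ => t) p = (DD t a ((p.2 * N + p.1) * N))⁻¹ * t := by
  rw [eraseEl, PP_const, X0, DD_add]
  group

lemma er_prod (t a : G) (f : ℕ × ℕ → ℕ) (K : List (ℕ × ℕ)) : ∀ c : ℕ,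
    t ^ c * (K.map fun p => (DD t a (f p))⁻¹ * t).prod =
      ((K.zipIdx c).map fun p => (DD t a (f p.1 + p.2))⁻¹).prod * t ^ (c + K.length) := by
  induction K with
  | nil => intro c; simp
  | cons p K ih =>
    intro c
    rw [List.map_cons, List.prod_cons, List.zipIdx_cons, List.map_cons, List.prod_cons,
      List.length_cons]
    have h := ih (c + 1)
    have e : c + (K.length + 1) = c + 1 + K.length := by ring
    rw [e, mul_assoc ((DD t a (f (p, c).1 + (p, c).2))⁻¹), ← h, DD_add, pow_succ]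
    simp only
    group

/-- The erased positions. -/
def minus (N : ℕ) (K : List (ℕ × ℕ)) : List ℕ :=
  K.zipIdx.map fun p => (p.1.2 * N + p.1.1) * N + p.2

/-- The lit positions. -/
def plus (N m : ℕ) (A : ℕ → ℕ → Bool) (J : List ℕ) : List ℕ :=
  (lit m A J).map fun p => (p.1 * N + p.2) * N + p.2

lemma base_unique {B r j u v : ℕ} (hu : u < B) (hv : v < B) (h : r * B + u = j * B + v) :
    r = j ∧ u = v := by
  have h1 : (r * B + u) / B = r := by
    rw [mul_comm, Nat.mul_add_div (by omega), Nat.div_eq_of_lt hu, add_zero]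
  have h2 : (j * B + v) / B = j := by
    rw [mul_comm, Nat.mul_add_div (by omega), Nat.div_eq_of_lt hv, add_zero]
  have h3 : r = j := by rw [← h1, h, h2]
  subst h3
  exact ⟨rfl, by omega⟩

lemma mem_minus {N : ℕ} {K : List (ℕ × ℕ)} {x : ℕ} :
    x ∈ minus N K ↔ ∃ (c : ℕ) (h : c < K.length), x = (K[c].2 * N + K[c].1) * N + c := by
  unfold minus
  simp only [List.mem_map, Prod.exists]
  constructor
  · rintro ⟨p, q, c, h, rfl⟩
    obtain ⟨h1, h2, h3⟩ := List.mem_zipIdx h
    refine ⟨c, by omega, ?_⟩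
    simp only [Nat.sub_zero] at h3
    rw [← h3]
  · rintro ⟨c, h, rfl⟩
    refine ⟨K[c].1, K[c].2, c, ?_, rfl⟩
    rw [List.mem_iff_getElem]
    exact ⟨c, by simpa using h, by simp⟩

lemma nodup_minus {N : ℕ} {K : List (ℕ × ℕ)} (hlen : K.length ≤ N) : (minus N K).Nodup := by
  unfold minus
  rw [List.nodup_iff_injective_getElem]
  intro c c' h
  have hc := c.2
  have hc' := c'.2
  simp only [List.length_map, List.length_zipIdx] at hc hc'
  simp only [List.getElem_map, List.getElem_zipIdx, Nat.zero_add] at h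
  exact Fin.ext (base_unique (by omega) (by omega) h).2

lemma nodup_plus {N m : ℕ} (hm : m ≤ N) {A : ℕ → ℕ → Bool} {J : List ℕ} (hJ : J.Nodup) :
    (plus N m A J).Nodup := by
  unfold plus
  refine List.Nodup.map_on ?_ (nodup_lit hJ)
  rintro ⟨r, i⟩ hp ⟨r', i'⟩ hq h
  have h1 := (mem_lit.1 hp).2.1
  have h2 := (mem_lit.1 hq).2.1
  simp only at h h1 h2
  obtain ⟨h3, rfl⟩ := base_unique (by omega) (by omega) h
  rw [Prod.mk.injEq]
  exact ⟨(base_unique (by omega) (by omega) h3).1, rfl⟩

/-- **Rigidity of the top level.** -/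
theorem fst_level0 {t a : G} (hb : ¬ GoodPair t a) {N n m : ℕ} (hm : m ≤ N)
    {A : ℕ → ℕ → Bool} {J : List ℕ} (hJ : J.Sublist (List.range n)) {Ks : List (ℕ × ℕ)}
    (hK : Ks.Sublist (pairs n m)) {z : G} (hz : z ∈ KK t a 1)
    (h : z * ((J.map (setEl (X0 t a N) m A)).prod *
      (Ks.map (eraseEl (X0 t a N) fun _ => t)).prod) = PP (fun _ => t) m) :
    Ks.map Prod.fst = List.range m := by
  have hJn : J.Nodup := hJ.nodup List.nodup_range
  have e1 : (J.map (setEl (X0 t a N) m A)).prod = ((plus N m A J).map (DD t a)).prod := by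
    rw [setEl_prod, plus, List.map_map]; rfl
  have e2 : (Ks.map (eraseEl (X0 t a N) fun _ => t)).prod =
      ((minus N Ks).map fun k => (DD t a k)⁻¹).prod * t ^ Ks.length := by
    have h1 := er_prod t a (fun p => (p.2 * N + p.1) * N) Ks 0
    rw [pow_zero, one_mul, zero_add] at h1
    rw [minus, List.map_map]
    have h2 : eraseEl (X0 t a N) (fun _ => t) =
        fun p => (DD t a ((p.2 * N + p.1) * N))⁻¹ * t := by
      funext p; exact eraseEl_X0 t a N p
    rw [h2, h1]
    rfl
  have hP : ∀ x ∈ (plus N m A J).map (DD t a), x ∈ KK t a 0 := by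
    intro x hx
    obtain ⟨k, -, rfl⟩ := List.mem_map.1 hx
    exact DD_mem t a k
  have hM : ∀ x ∈ (minus N Ks).map (fun k => (DD t a k)⁻¹), x ∈ KK t a 0 := by
    intro x hx
    obtain ⟨k, -, rfl⟩ := List.mem_map.1 hx
    exact inv_mem (DD_mem t a k)
  have hP' := Subgroup.list_prod_mem _ hP
  have hM' := Subgroup.list_prod_mem _ hM
  have hzK : z ∈ KK t a 0 := KK_anti t a (Nat.zero_le 1) hz
  rw [e1, e2, PP_const] at h
  have h1 : z * (((plus N m A J).map (DD t a)).prod * ((minus N Ks).map fun k =>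
      (DD t a k)⁻¹).prod) * t ^ Ks.length = t ^ m := by
    rw [← h]
    simp only [mul_assoc]
  have hN := mul_mem hzK (mul_mem hP' hM')
  have hlen : Ks.length = m := by
    rcases le_total Ks.length m with hle | hle
    · obtain ⟨d, rfl⟩ := Nat.exists_eq_add_of_le hle
      have h2 : t ^ d ∈ KK t a 0 := by
        rw [add_comm Ks.length d, pow_add, mul_left_inj] at h1
        rw [← h1, add_comm d]; exact hN
      have h3 := bad_pow hb h2
      omega
    · obtain ⟨d, hd⟩ := Nat.exists_eq_add_of_le hle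
      have h2 : t ^ d ∈ KK t a 0 := by
        rw [hd, add_comm m d, pow_add, ← mul_assoc, mul_eq_right, mul_eq_one_iff_eq_inv] at h1
        rw [h1] at hN
        exact inv_mem_iff.1 hN
      have h3 := bad_pow hb h2
      omega
  rw [hlen, mul_eq_right] at h1
  have h2 := congrArg (cls (KK t a 0)) h1
  rw [cls_mul _ hzK (mul_mem hP' hM'), cls_mul _ hP' hM', (cls_eq_zero_iff _ hzK).2 hz, zero_add,
    cls_one, cls_prod _ hP, cls_prod _ hM, List.map_map, List.map_map] at h2
  have h3 : ((minus N Ks).map (cls (KK t a 0) ∘ fun k => (DD t a k)⁻¹)).sum =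
      -((minus N Ks).map fun k => cls (KK t a 0) (DD t a k)).sum := by
    induction minus N Ks with
    | nil => simp
    | cons k l ih =>
      rw [List.map_cons, List.sum_cons, ih, List.map_cons, List.sum_cons, neg_add]
      congr 1
      exact cls_inv _ _
  rw [h3, ← sub_eq_add_neg, sub_eq_zero] at h2
  have hmem := bad_sum hb (nodup_plus hm hJn) (nodup_minus (by omega)) h2
  apply List.ext_getElem
  · simp [hlen]
  · intro c hc hc'
    rw [List.getElem_map, List.getElem_range]
    rw [List.length_map] at hc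
    have h4 : (Ks[c].2 * N + Ks[c].1) * N + c ∈ plus N m A J :=
      (hmem _).2 (mem_minus.2 ⟨c, hc, rfl⟩)
    obtain ⟨⟨r, i⟩, hp, he⟩ := List.mem_map.1 h4
    have h5 := (mem_lit.1 hp).2.1
    simp only at he h5
    obtain ⟨h6, rfl⟩ := base_unique (by omega) (by omega) he
    have h7 := (mem_pairs.1 (hK.subset (List.getElem_mem hc))).1
    exact (base_unique (by omega) (by omega) h6).2.symm

lemma dis_level0 {t a : G} (hb : ¬ GoodPair t a) (N : ℕ) : Dis (KK t a 0) (X0 t a N) N := by
  intro Xs Ys hX hY hXN hYN h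
  have hinj : ∀ p : ℕ × ℕ, p.1 < N ∧ p.2 < N → ∀ q : ℕ × ℕ, q.1 < N ∧ q.2 < N →
      (p.1 * N + p.2) * N + p.2 = (q.1 * N + q.2) * N + q.2 → p = q := by
    rintro ⟨r, i⟩ ⟨h1, h2⟩ ⟨r', i'⟩ ⟨h3, h4⟩ he
    simp only at h1 h2 h3 h4 he
    obtain ⟨h5, rfl⟩ := base_unique (by omega) (by omega) he
    rw [Prod.mk.injEq]
    exact ⟨(base_unique (by omega) (by omega) h5).1, rfl⟩
  have hnd : ∀ l : List (ℕ × ℕ), l.Nodup → (∀ p ∈ l, p.1 < N ∧ p.2 < N) →
      (l.map fun p => (p.1 * N + p.2) * N + p.2).Nodup := fun l h1 h2 =>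
    List.Nodup.map_on (fun p hp q hq he => hinj p (h2 p hp) q (h2 q hq) he) h1
  have h1 := bad_sum hb (hnd Xs hX hXN) (hnd Ys hY hYN) (by
    rw [List.map_map, List.map_map]; exact h)
  have key : ∀ l : List (ℕ × ℕ), (∀ p ∈ l, p.1 < N ∧ p.2 < N) → ∀ p : ℕ × ℕ,
      p.1 < N ∧ p.2 < N →
      ((p.1 * N + p.2) * N + p.2 ∈ l.map (fun p => (p.1 * N + p.2) * N + p.2) ↔ p ∈ l) := by
    intro l hl p hp
    constructor
    · intro h
      obtain ⟨q, hq, he⟩ := List.mem_map.1 h
      rwa [← hinj q (hl q hq) p hp he]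
    · exact fun h => List.mem_map.2 ⟨p, h, rfl⟩
  intro p
  constructor
  · intro hp
    exact (key Ys hYN p (hXN p hp)).1 ((h1 _).1 ((key Xs hXN p (hXN p hp)).2 hp))
  · intro hp
    exact (key Xs hXN p (hYN p hp)).1 ((h1 _).2 ((key Ys hYN p (hYN p hp)).2 hp))

/-! ### The gadget of the other levels -/

/-- The shifts of the other levels. -/
def Q1 (t a : G) (i : ℕ) : G := t ^ (i + 1) * a

/-- The positions of a product of shifts. -/
def pos : List ℕ → ℕ → List ℕ
  | [], _ => []
  | i :: I, c => (c + i + 1) :: pos I (c + i + 1)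

/-- The total shift. -/
def tot : List ℕ → ℕ → ℕ
  | [], c => c
  | i :: I, c => tot I (c + i + 1)

lemma pos_prod (t a : G) (I : List ℕ) : ∀ c : ℕ,
    t ^ c * (I.map (Q1 t a)).prod = ((pos I c).map (DD t a)).prod * t ^ tot I c := by
  induction I with
  | nil => intro c; simp [pos, tot]
  | cons i I ih =>
    intro c
    rw [List.map_cons, List.prod_cons, pos, tot, List.map_cons, List.prod_cons, mul_assoc, ← ih]
    rw [Q1, DD, add_assoc c i 1, pow_add]
    group

lemma lt_of_mem_pos (I : List ℕ) : ∀ c : ℕ, ∀ x ∈ pos I c, c < x := by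
  induction I with
  | nil => intro c x hx; simp [pos] at hx
  | cons i I ih =>
    intro c x hx
    rw [pos] at hx
    rcases List.mem_cons.1 hx with rfl | hx
    · omega
    · have := ih _ x hx
      omega

lemma nodup_pos (I : List ℕ) : ∀ c : ℕ, (pos I c).Nodup := by
  induction I with
  | nil => intro c; simp [pos]
  | cons i I ih =>
    intro c
    rw [pos, List.nodup_cons]
    exact ⟨fun h => lt_irrefl _ (lt_of_mem_pos I _ _ h), ih _⟩

lemma pos_inj (I : List ℕ) : ∀ (I' : List ℕ) (c : ℕ), (∀ x, x ∈ pos I c ↔ x ∈ pos I' c) →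
    I = I' := by
  induction I with
  | nil =>
    intro I' c h
    rcases I' with _ | ⟨i', I'⟩
    · rfl
    · have := (h (c + i' + 1)).2 (by simp [pos])
      simp [pos] at this
  | cons i I ih =>
    intro I' c h
    rcases I' with _ | ⟨i', I'⟩
    · have := (h (c + i + 1)).1 (by simp [pos])
      simp [pos] at this
    · have h1 := (h (c + i + 1)).1 (by simp [pos])
      have h2 := (h (c + i' + 1)).2 (by simp [pos])
      rw [pos, List.mem_cons] at h1 h2
      have h3 : i = i' := by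
        rcases h1 with h1 | h1
        · omega
        · have h4 := lt_of_mem_pos _ _ _ h1
          rcases h2 with h2 | h2
          · omega
          · have h5 := lt_of_mem_pos _ _ _ h2
            omega
      subst h3
      congr 1
      refine ih I' (c + i + 1) fun x => ?_
      have h6 := h x
      rw [pos, pos, List.mem_cons, List.mem_cons] at h6
      constructor
      · intro hx
        have h7 := lt_of_mem_pos _ _ _ hx
        rcases h6.1 (Or.inr hx) with h8 | h8
        · omega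
        · exact h8
      · intro hx
        have h7 := lt_of_mem_pos _ _ _ hx
        rcases h6.2 (Or.inr hx) with h8 | h8
        · omega
        · exact h8

/-- **Rigidity of the shifts.** -/
theorem rigid {t a : G} (hb : ¬ GoodPair t a) {I I' : List ℕ} {k : G} (hk : k ∈ KK t a 1)
    (h : k * (I.map (Q1 t a)).prod = (I'.map (Q1 t a)).prod) : I = I' := by
  have h1 := pos_prod t a I 0
  have h2 := pos_prod t a I' 0
  rw [pow_zero, one_mul] at h1 h2
  have hU : ∀ l : List ℕ, (l.map (DD t a)).prod ∈ KK t a 0 := by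
    intro l
    refine Subgroup.list_prod_mem _ fun x hx => ?_
    obtain ⟨k, -, rfl⟩ := List.mem_map.1 hx
    exact DD_mem t a k
  have hk0 : k ∈ KK t a 0 := KK_anti t a (Nat.zero_le 1) hk
  rw [h1, h2, ← mul_assoc] at h
  have htot : tot I 0 = tot I' 0 := by
    rcases le_total (tot I 0) (tot I' 0) with hle | hle
    · obtain ⟨d, hd⟩ := Nat.exists_eq_add_of_le hle
      have h3 : t ^ d ∈ KK t a 0 := by
        rw [hd, add_comm (tot I 0) d, pow_add, ← mul_assoc, mul_left_inj] at h
        have h4 : t ^ d = (((pos I' 0).map (DD t a)).prod)⁻¹ *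
          (k * ((pos I 0).map (DD t a)).prod) := by rw [h]; group
        rw [h4]
        exact mul_mem (inv_mem (hU _)) (mul_mem hk0 (hU _))
      have := bad_pow hb h3
      omega
    · obtain ⟨d, hd⟩ := Nat.exists_eq_add_of_le hle
      have h3 : t ^ d ∈ KK t a 0 := by
        rw [hd, add_comm (tot I' 0) d, pow_add, ← mul_assoc, mul_left_inj] at h
        have h4 : t ^ d = (k * ((pos I 0).map (DD t a)).prod)⁻¹ *
          ((pos I' 0).map (DD t a)).prod := by rw [← h]; group
        rw [h4]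
        exact mul_mem (inv_mem (mul_mem hk0 (hU _))) (hU _)
      have := bad_pow hb h3
      omega
  rw [htot, mul_left_inj] at h
  refine pos_inj I I' 0 (bad_sum hb (nodup_pos I 0) (nodup_pos I' 0) ?_)
  have h3 : ∀ l : List ℕ, (l.map fun k => cls (KK t a 0) (DD t a k)).sum =
      cls (KK t a 0) (l.map (DD t a)).prod := by
    intro l
    rw [cls_prod, List.map_map]
    · rfl
    · intro x hx
      obtain ⟨k, -, rfl⟩ := List.mem_map.1 hx
      exact DD_mem t a k
  rw [h3, h3, cls_eq_iff _ (hU _) (hU _), ← h]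
  have h4 : ((pos I 0).map (DD t a)).prod * (k * ((pos I 0).map (DD t a)).prod)⁻¹ = k⁻¹ := by
    group
  rw [h4]
  exact inv_mem hk

lemma exists_mod {K : Subgroup G} {q c : ℕ × ℕ → G} (l : List (ℕ × ℕ))
    (hc : ∀ p ∈ l, c p ∈ K) (hq : ∀ p, q p ∈ normalizer (K : Set G)) :
    ∃ k ∈ K, (l.map fun p => c p * q p).prod = k * (l.map q).prod := by
  induction l with
  | nil => exact ⟨1, one_mem _, by simp⟩
  | cons p l ih =>
    obtain ⟨k, hk, h⟩ := ih fun p hp => hc p (List.mem_cons_of_mem _ hp)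
    refine ⟨c p * (q p * k * (q p)⁻¹), mul_mem (hc p List.mem_cons_self)
      ((mem_normalizer_iff.1 (hq p) k).1 hk), ?_⟩
    rw [List.map_cons, List.prod_cons, h, List.map_cons, List.prod_cons]
    group

lemma PP_Q1_mem (t a : G) (j i : ℕ) : PP (Q1 t a) i ∈ normalizer (KK t a j : Set G) := by
  unfold PP
  refine Subgroup.list_prod_mem _ fun x hx => ?_
  obtain ⟨k, -, rfl⟩ := List.mem_map.1 hx
  exact mul_mem (pow_mem (t_mem_normalizer t a j) _) (a_mem_normalizer t a j)

/-- **Rigidity of the other levels.** -/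
theorem fst_level1 {t a : G} (hb : ¬ GoodPair t a) {X : ℕ → ℕ → G} {N n m : ℕ} (hn : n ≤ N)
    (hm : m ≤ N) (hX : ∀ r i, r < N → i < N → X r i ∈ KK t a 1) {A : ℕ → ℕ → Bool} {J : List ℕ}
    (hJ : J.Sublist (List.range n)) {Ks : List (ℕ × ℕ)} (hK : Ks.Sublist (pairs n m)) {z : G}
    (hz : z ∈ KK t a 1)
    (h : z * ((J.map (setEl X m A)).prod * (Ks.map (eraseEl X (Q1 t a))).prod) =
      PP (Q1 t a) m) : Ks.map Prod.fst = List.range m := by
  have h1 : (J.map (setEl X m A)).prod ∈ KK t a 1 := by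
    refine Subgroup.list_prod_mem _ fun x hx => ?_
    obtain ⟨r, hr, rfl⟩ := List.mem_map.1 hx
    refine Subgroup.list_prod_mem _ fun x hx => ?_
    obtain ⟨i, hi, rfl⟩ := List.mem_map.1 hx
    exact hX r i ((List.mem_range.1 (hJ.subset hr)).trans_le hn)
      ((List.mem_range.1 (List.mem_filter.1 hi).1).trans_le hm)
  obtain ⟨k, hk, h2⟩ := exists_mod (K := KK t a 1) (q := fun p => Q1 t a p.1)
    (c := fun p => (PP (Q1 t a) p.1)⁻¹ * (X p.2 p.1)⁻¹ * PP (Q1 t a) p.1) Ks (by
      intro p hp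
      obtain ⟨h3, h4⟩ := mem_pairs.1 (hK.subset hp)
      have h5 := conj_mem_KK (inv_mem (PP_Q1_mem t a 1 p.1))
        (inv_mem (hX p.2 p.1 (h4.trans_le hn) (h3.trans_le hm)))
      rwa [inv_inv] at h5) (fun p => mul_mem (pow_mem (t_mem_normalizer t a 1) _)
        (a_mem_normalizer t a 1))
  have h3 : (Ks.map (eraseEl X (Q1 t a))).prod = k * ((Ks.map Prod.fst).map (Q1 t a)).prod := by
    rw [List.map_map]
    have h4 : eraseEl X (Q1 t a) = fun p => (PP (Q1 t a) p.1)⁻¹ * (X p.2 p.1)⁻¹ *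
        PP (Q1 t a) p.1 * Q1 t a p.1 := by
      funext p; rw [eraseEl]; simp only [mul_assoc]
    rw [h4, h2]
    rfl
  refine rigid hb (mul_mem hz (mul_mem h1 hk)) ?_
  rw [h3] at h
  have h5 : PP (Q1 t a) m = ((List.range m).map (Q1 t a)).prod := rfl
  rw [← h5, ← h]
  simp only [mul_assoc]

end Pool.Agent.Helper87.SSP2
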