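import Pool.Agent.Helper87.SSP2.Pairs

/-!
# The general gadget
-/

namespace Pool.Agent.Helper87.SSP2

open Subgroup Pool.Agent.Helper87.SSP

variable {G : Type*} [Group G]

section gadget

variable (X : ℕ → ℕ → G) (Q : ℕ → G) (n m : ℕ) (A : ℕ → ℕ → Bool)

/-- The product of the first shifts. -/
def PP (i : ℕ) : G := ((List.range i).map Q).prod

/-- The pairs of an element and a set. -/
def pairs : List (ℕ × ℕ) := (List.range m).flatMap fun i => (List.range n).map fun r => (i, r)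

/-- The element of a set. -/
def setEl (r : ℕ) : G := (((List.range m).filter fun i => A r i).map (X r)).prod

/-- The erasing element of a pair. -/
def eraseEl (p : ℕ × ℕ) : G := (PP Q p.1)⁻¹ * ((X p.2 p.1)⁻¹ * (PP Q p.1 * Q p.1))

/-- The list of the group elements. -/
def gList : List G := (List.range n).map (setEl X m A) ++ (pairs n m).map (eraseEl X Q)

/-- There is an exact cover. -/
def Cov : Prop := ∃ c : ℕ → Prop, ∀ i < m, ∃ r < n, c r ∧ A r i = true ∧
  ∀ r' < n, c r' → A r' i = true → r' = r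

/-- The lit cells. -/
def lit (J : List ℕ) : List (ℕ × ℕ) :=
  J.flatMap fun r => ((List.range m).filter fun i => A r i).map fun i => (r, i)

/-- The erased cells. -/
def era (K : List (ℕ × ℕ)) : List (ℕ × ℕ) := K.map Prod.swap

end gadget

lemma PP_succ (Q : ℕ → G) (i : ℕ) : PP Q (i + 1) = PP Q i * Q i := by
  unfold PP
  rw [List.range_succ, List.map_append, List.prod_append]
  simp

lemma PP_zero (Q : ℕ → G) : PP Q 0 = 1 := rfl

lemma tele (X : ℕ → ℕ → G) (Q : ℕ → G) (K : List (ℕ × ℕ)) : ∀ c : ℕ,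
    K.map Prod.fst = List.range' c K.length →
    PP Q c * (K.map (eraseEl X Q)).prod =
      (K.map fun p => (X p.2 p.1)⁻¹).prod * PP Q (c + K.length) := by
  induction K with
  | nil => intro c _; simp
  | cons p K ih =>
    intro c h
    rw [List.map_cons, List.length_cons, List.range'_succ, List.cons.injEq] at h
    obtain ⟨rfl, h⟩ := h
    rw [List.map_cons, List.prod_cons, List.map_cons, List.prod_cons, List.length_cons]
    have h1 := ih (p.1 + 1) h
    have e : p.1 + (K.length + 1) = p.1 + 1 + K.length := by ring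
    rw [e, mul_assoc, ← h1, PP_succ, eraseEl]
    group

lemma tele0 (X : ℕ → ℕ → G) (Q : ℕ → G) {K : List (ℕ × ℕ)} {m : ℕ}
    (h : K.map Prod.fst = List.range m) :
    (K.map (eraseEl X Q)).prod = (K.map fun p => (X p.2 p.1)⁻¹).prod * PP Q m := by
  have hlen : K.length = m := by
    have := congrArg List.length h
    simpa using this
  have := tele X Q K 0 (by rw [h, hlen, List.range_eq_range'])
  rw [PP_zero, one_mul, zero_add, hlen] at this
  exact this

lemma setEl_prod (X : ℕ → ℕ → G) (m : ℕ) (A : ℕ → ℕ → Bool) (J : List ℕ) :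
    (J.map (setEl X m A)).prod = ((lit m A J).map fun p => X p.1 p.2).prod := by
  induction J with
  | nil => rfl
  | cons j J ih =>
    rw [List.map_cons, List.prod_cons, ih, lit, lit, List.flatMap_cons, List.map_append,
      List.prod_append, setEl, List.map_map]
    rfl

lemma mem_lit {m : ℕ} {A : ℕ → ℕ → Bool} {J : List ℕ} {p : ℕ × ℕ} :
    p ∈ lit m A J ↔ p.1 ∈ J ∧ p.2 < m ∧ A p.1 p.2 = true := by
  obtain ⟨r, i⟩ := p
  unfold lit
  simp only [List.mem_flatMap, List.mem_map, List.mem_filter, List.mem_range, Prod.mk.injEq]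
  constructor
  · rintro ⟨r', hr', i', ⟨hi', hA⟩, rfl, rfl⟩
    exact ⟨hr', hi', hA⟩
  · rintro ⟨hr, hi, hA⟩
    exact ⟨r, hr, i, ⟨hi, hA⟩, rfl, rfl⟩

lemma nodup_lit {m : ℕ} {A : ℕ → ℕ → Bool} {J : List ℕ} (hJ : J.Nodup) :
    (lit m A J).Nodup := by
  unfold lit
  rw [List.nodup_flatMap]
  refine ⟨fun j _ => (List.nodup_range.filter _).map fun x y h => (Prod.mk.inj h).2,
    hJ.imp fun {j j'} hne => ?_⟩
  intro x hx hx'
  simp only [List.mem_map] at hx hx'
  obtain ⟨i, -, rfl⟩ := hx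
  obtain ⟨i', -, h⟩ := hx'
  exact hne (Prod.mk.inj h).1.symm

lemma mem_pairs {n m : ℕ} {p : ℕ × ℕ} : p ∈ pairs n m ↔ p.1 < m ∧ p.2 < n := by
  obtain ⟨i, r⟩ := p
  unfold pairs
  simp only [List.mem_flatMap, List.mem_map, List.mem_range, Prod.mk.injEq]
  constructor
  · rintro ⟨i', hi', r', hr', rfl, rfl⟩
    exact ⟨hi', hr'⟩
  · rintro ⟨hi, hr⟩
    exact ⟨i, hi, r, hr, rfl, rfl⟩

/-- A family of elements of a subgroup that is dissociated in the abelianization. -/
def Dis (K : Subgroup G) (X : ℕ → ℕ → G) (N : ℕ) : Prop :=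
  ∀ Xs Ys : List (ℕ × ℕ), Xs.Nodup → Ys.Nodup → (∀ p ∈ Xs, p.1 < N ∧ p.2 < N) →
    (∀ p ∈ Ys, p.1 < N ∧ p.2 < N) →
    (Xs.map fun p => cls K (X p.1 p.2)).sum = (Ys.map fun p => cls K (X p.1 p.2)).sum →
    ∀ p, p ∈ Xs ↔ p ∈ Ys

section common

variable {K : Subgroup G} {X : ℕ → ℕ → G} {N : ℕ} (hX : ∀ r i, r < N → i < N → X r i ∈ K)

include hX in
lemma cls_lit {Xs : List (ℕ × ℕ)} (h : ∀ p ∈ Xs, p.1 < N ∧ p.2 < N) :
    (Xs.map fun p => X p.1 p.2).prod ∈ K ∧
      cls K (Xs.map fun p => X p.1 p.2).prod = (Xs.map fun p => cls K (X p.1 p.2)).sum := by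
  have h1 : ∀ x ∈ Xs.map fun p => X p.1 p.2, x ∈ K := by
    intro x hx
    obtain ⟨p, hp, rfl⟩ := List.mem_map.1 hx
    exact hX _ _ (h p hp).1 (h p hp).2
  refine ⟨Subgroup.list_prod_mem _ h1, ?_⟩
  rw [cls_prod K h1, List.map_map]
  rfl

include hX in
lemma cls_era {Ks : List (ℕ × ℕ)} (h : ∀ p ∈ era Ks, p.1 < N ∧ p.2 < N) :
    (Ks.map fun p => (X p.2 p.1)⁻¹).prod ∈ K ∧
      cls K (Ks.map fun p => (X p.2 p.1)⁻¹).prod =
        -((era Ks).map fun p => cls K (X p.1 p.2)).sum := by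
  have h1 : ∀ x ∈ Ks.map fun p => (X p.2 p.1)⁻¹, x ∈ K := by
    intro x hx
    obtain ⟨p, hp, rfl⟩ := List.mem_map.1 hx
    have := h p.swap (List.mem_map_of_mem hp)
    exact inv_mem (hX _ _ this.1 this.2)
  refine ⟨Subgroup.list_prod_mem _ h1, ?_⟩
  rw [cls_prod K h1, List.map_map]
  unfold era
  rw [List.map_map]
  have : ∀ l : List (ℕ × ℕ), (l.map (cls K ∘ fun p => (X p.2 p.1)⁻¹)).sum =
      -(l.map ((fun p => cls K (X p.1 p.2)) ∘ Prod.swap)).sum := by
    intro l
    induction l with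
    | nil => simp
    | cons p l ih =>
      rw [List.map_cons, List.sum_cons, ih, List.map_cons, List.sum_cons, neg_add]
      congr 1
      exact cls_inv K _
  exact this Ks

include hX in
/-- The last step of the proofs of soundness. -/
theorem cov_of_eq (hd : Dis K X N) {n m : ℕ} (hn : n ≤ N) (hm : m ≤ N) {A : ℕ → ℕ → Bool}
    {Q : ℕ → G} {J : List ℕ} (hJ : J.Sublist (List.range n)) {Ks : List (ℕ × ℕ)}
    (hK : Ks.Sublist (pairs n m)) (hfst : Ks.map Prod.fst = List.range m) {z : G}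
    (hz : z ∈ ⁅K, K⁆)
    (h : z * ((J.map (setEl X m A)).prod * (Ks.map (eraseEl X Q)).prod) = PP Q m) :
    Cov n m A := by
  have hJn : J.Nodup := hJ.nodup List.nodup_range
  have hlit : ∀ p ∈ lit m A J, p.1 < N ∧ p.2 < N := by
    intro p hp
    obtain ⟨h1, h2, -⟩ := mem_lit.1 hp
    exact ⟨(List.mem_range.1 (hJ.subset h1)).trans_le hn, h2.trans_le hm⟩
  have hera : ∀ p ∈ era Ks, p.1 < N ∧ p.2 < N := by
    intro p hp
    obtain ⟨q, hq, rfl⟩ := List.mem_map.1 hp
    obtain ⟨h1, h2⟩ := mem_pairs.1 (hK.subset hq)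
    exact ⟨h2.trans_le hn, h1.trans_le hm⟩
  have hKn : Ks.Nodup := by
    have : (Ks.map Prod.fst).Nodup := by rw [hfst]; exact List.nodup_range
    exact List.Nodup.of_map _ this
  have hen : (era Ks).Nodup := hKn.map Prod.swap_injective
  obtain ⟨h1, h2⟩ := cls_lit hX hlit
  obtain ⟨h3, h4⟩ := cls_era hX hera
  rw [setEl_prod, tele0 X Q hfst] at h
  have h5 : z * (((lit m A J).map fun p => X p.1 p.2).prod *
      (Ks.map fun p => (X p.2 p.1)⁻¹).prod) = 1 := by
    have : z * (((lit m A J).map fun p => X p.1 p.2).prod *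
      (Ks.map fun p => (X p.2 p.1)⁻¹).prod) * PP Q m = PP Q m := by
      simp only [mul_assoc] at h ⊢
      exact h
    exact mul_eq_right.1 this
  have hzK : z ∈ K := Subgroup.commutator_le_self _ hz
  have h6 := congrArg (cls K) h5
  rw [cls_mul K hzK (mul_mem h1 h3), cls_mul K h1 h3, (cls_eq_zero_iff K hzK).2 hz, zero_add, h2,
    h4, cls_one, ← sub_eq_add_neg, sub_eq_zero] at h6
  have hmem := hd _ _ (nodup_lit hJn) hen hlit hera h6
  refine ⟨fun r => r ∈ J, fun i hi => ?_⟩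
  have h7 : i ∈ Ks.map Prod.fst := by rw [hfst]; exact List.mem_range.2 hi
  obtain ⟨⟨i', r⟩, hp, rfl⟩ := List.mem_map.1 h7
  have h8 : (r, i') ∈ lit m A J := (hmem _).2 (List.mem_map.2 ⟨(i', r), hp, rfl⟩)
  obtain ⟨h9, -, h10⟩ := mem_lit.1 h8
  refine ⟨r, List.mem_range.1 (hJ.subset h9), h9, h10, ?_⟩
  intro r' _ hr' hA
  have h11 : (r', i') ∈ era Ks := (hmem _).1 (mem_lit.2 ⟨hr', hi, hA⟩)
  obtain ⟨⟨i'', r''⟩, hq, he⟩ := List.mem_map.1 h11
  obtain ⟨rfl, rfl⟩ : r'' = r' ∧ i'' = i' := by simpa using he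
  have hinj : ∀ p ∈ Ks, ∀ q ∈ Ks, p.1 = q.1 → p = q := by
    have : (Ks.map Prod.fst).Nodup := by rw [hfst]; exact List.nodup_range
    exact fun p hp q hq h => List.inj_on_of_nodup_map this hp hq h
  have := hinj _ hq _ hp rfl
  exact (Prod.mk.inj this).2

include hX in
/-- **Completeness of the gadget** up to an error. -/
theorem complete (Q : ℕ → G) {n m : ℕ} (hn : n ≤ N) (hm : m ≤ N) {A : ℕ → ℕ → Bool}
    (h : Cov n m A) : ∃ s : List G, s.Sublist (gList X Q n m A) ∧ ∃ u v : List (ℕ × ℕ),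
      u.length = m ∧ v.length = m ∧ (∀ p ∈ u, p.1 < N ∧ p.2 < N) ∧
      (∀ p ∈ v, p.1 < N ∧ p.2 < N) ∧
      (u.map fun p => X p.1 p.2).prod * (v.map fun p => (X p.1 p.2)⁻¹).prod ∈ ⁅K, K⁆ ∧
      s.prod = (u.map fun p => X p.1 p.2).prod * (v.map fun p => (X p.1 p.2)⁻¹).prod * PP Q m := by
  classical
  obtain ⟨c, hc⟩ := h
  choose! r hr using hc
  set J := (List.range n).filter fun j => decide (c j) with hJ
  set Ks := (List.range m).map fun i => (i, r i) with hKs
  have hJn : J.Nodup := List.nodup_range.filter _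
  have hfst : Ks.map Prod.fst = List.range m := by
    rw [hKs, List.map_map]
    exact List.map_id'' (fun _ => rfl) _
  have hKn : Ks.Nodup := by
    have : (Ks.map Prod.fst).Nodup := by rw [hfst]; exact List.nodup_range
    exact List.Nodup.of_map _ this
  have hen : (era Ks).Nodup := hKn.map Prod.swap_injective
  have hperm : (lit m A J).Perm (era Ks) := by
    rw [List.perm_ext_iff_of_nodup (nodup_lit hJn) hen]
    rintro ⟨j, i⟩
    rw [mem_lit]
    constructor
    · rintro ⟨hj, hi, hA⟩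
      have hj' := List.mem_filter.1 hj
      obtain ⟨h1, h2, h3, h4⟩ := hr i hi
      have h5 := h4 j (List.mem_range.1 hj'.1) (by simpa using hj'.2) hA
      refine List.mem_map.2 ⟨(i, r i), List.mem_map.2 ⟨i, List.mem_range.2 hi, rfl⟩, ?_⟩
      simp [h5]
    · intro h
      obtain ⟨p, hp, he⟩ := List.mem_map.1 h
      obtain ⟨i', hi', rfl⟩ := List.mem_map.1 hp
      obtain ⟨rfl, rfl⟩ : r i' = j ∧ i' = i := by simpa using he
      obtain ⟨h1, h2, h3, h4⟩ := hr i' (List.mem_range.1 hi')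
      exact ⟨List.mem_filter.2 ⟨List.mem_range.2 h1, by simpa using h2⟩, List.mem_range.1 hi', h3⟩
  have hlit : ∀ p ∈ lit m A J, p.1 < N ∧ p.2 < N := by
    intro p hp
    obtain ⟨h1, h2, -⟩ := mem_lit.1 hp
    exact ⟨(List.mem_range.1 (List.mem_filter.1 h1).1).trans_le hn, h2.trans_le hm⟩
  have hera : ∀ p ∈ era Ks, p.1 < N ∧ p.2 < N := fun p hp => hlit p (hperm.mem_iff.2 hp)
  obtain ⟨h1, h2⟩ := cls_lit hX hlit
  obtain ⟨h3, h4⟩ := cls_era hX hera
  have hv : ((era Ks).map fun p => (X p.1 p.2)⁻¹).prod =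
      (Ks.map fun p => (X p.2 p.1)⁻¹).prod := by
    unfold era; rw [List.map_map]; rfl
  refine ⟨J.map (setEl X m A) ++ Ks.map (eraseEl X Q), ?_, lit m A J, era Ks, ?_, ?_, hlit, hera,
    ?_, ?_⟩
  · unfold gList
    refine List.Sublist.append (List.filter_sublist.map _) (List.Sublist.map _ ?_)
    have e : Ks = (List.range m).flatMap fun i => [(i, r i)] := by
      rw [hKs, ← List.map_eq_flatMap]
    rw [e]
    unfold pairs
    have hfm : ∀ l : List ℕ, (∀ x ∈ l, x < m) → (l.flatMap fun i => [(i, r i)]).Sublist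
        (l.flatMap fun i => (List.range n).map fun r => (i, r)) := by
      intro l
      induction l with
      | nil => intro _; exact List.Sublist.refl _
      | cons x l ih =>
        intro h
        rw [List.flatMap_cons, List.flatMap_cons]
        refine List.Sublist.append ?_ (ih fun y hy => h y (List.mem_cons_of_mem _ hy))
        rw [List.singleton_sublist, List.mem_map]
        exact ⟨r x, List.mem_range.2 (hr x (h x List.mem_cons_self)).1, rfl⟩
    exact hfm _ fun x hx => List.mem_range.1 hx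
  · rw [hperm.length_eq]; simp [era, hKs]
  · simp [era, hKs]
  · rw [hv, ← cls_eq_zero_iff K (mul_mem h1 h3), cls_mul K h1 h3, h2, h4,
      (hperm.map _).sum_eq, add_neg_cancel]
  · rw [List.prod_append, setEl_prod, tele0 X Q hfst, hv]
    simp only [mul_assoc]

end common

end Pool.Agent.Helper87.SSP2
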