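import Pool.Agent.Helper87.SSP2.Kthm
import Pool.Agent.Helper87.SSP.Defs

/-!
# Finitely generated solvable groups all of whose pairs are good are virtually nilpotent
-/

namespace Pool.Agent.Helper87.SSP2

open Subgroup Pool.Agent.Helper87.SSP
open scoped commutatorElement

variable {G : Type*} [Group G]

/-- The lower central series of the group. -/
abbrev lcs (G : Type*) [Group G] (i : ℕ) : Subgroup G := (⊤ : Subgroup G).lowerCentralSeries i

lemma lcs_succ (i : ℕ) : lcs G (i + 1) = ⁅lcs G i, (⊤ : Subgroup G)⁆ := rfl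

lemma lcs_anti (i : ℕ) : lcs G (i + 1) ≤ lcs G i :=
  Subgroup.lowerCentralSeries_antitone _ (Nat.le_succ i)

/-- A subgroup between consecutive terms is normal. -/
lemma normal_of_between {H : Subgroup G} {i : ℕ} (h1 : H ≤ lcs G i) (h2 : lcs G (i + 1) ≤ H) :
    H.Normal := by
  refine ⟨fun x hx g => ?_⟩
  have h3 : ⁅x, g⁆ ∈ lcs G (i + 1) := commutator_mem_commutator (h1 hx) (mem_top g)
  have h4 : g * x * g⁻¹ = ⁅x, g⁆⁻¹ * x := by rw [commutatorElement_def]; group
  rw [h4]
  exact mul_mem (inv_mem (h2 h3)) hx

/-- The elements whose commutators are in a normal subgroup. -/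
def centralMod (K : Subgroup G) [K.Normal] : Subgroup G :=
  (center (G ⧸ K)).comap (QuotientGroup.mk' K)

instance (K : Subgroup G) [K.Normal] : (centralMod K).Normal := by
  unfold centralMod; infer_instance

lemma commute_mk_iff {K : Subgroup G} [K.Normal] {x g : G} :
    Commute (QuotientGroup.mk' K x) (QuotientGroup.mk' K g) ↔ ⁅x, g⁆ ∈ K := by
  have h1 : ⁅x, g⁆ ∈ K ↔ QuotientGroup.mk' K ⁅x, g⁆ = 1 := by
    rw [← MonoidHom.mem_ker, QuotientGroup.ker_mk']
  rw [h1, map_commutatorElement, commutatorElement_eq_one_iff_commute]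

lemma mem_centralMod {K : Subgroup G} [K.Normal] {x : G} :
    x ∈ centralMod K ↔ ∀ g, ⁅x, g⁆ ∈ K := by
  unfold centralMod
  rw [mem_comap, mem_center_iff]
  constructor
  · intro h g
    rw [← commute_mk_iff]
    exact (h (QuotientGroup.mk' K g)).symm
  · intro h q
    induction q using QuotientGroup.induction_on with
    | H g => exact (commute_mk_iff.2 (h g)).eq.symm

lemma commutator_le_of_le_centralMod {K H : Subgroup G} [K.Normal] (h : H ≤ centralMod K) :
    ⁅H, (⊤ : Subgroup G)⁆ ≤ K := by
  rw [commutator_le]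
  intro x hx g _
  exact mem_centralMod.1 (h hx) g

lemma le_centralMod_lcs (i : ℕ) : lcs G i ≤ centralMod (lcs G (i + 1)) := fun _ hx =>
  mem_centralMod.2 fun g => commutator_mem_commutator hx (mem_top g)

/-! ### Simple commutators -/

open Classical in
/-- Simple commutators of the generators. -/
noncomputable def simple (S : Finset G) : ℕ → Finset G
  | 0 => S
  | i + 1 => Finset.image₂ (fun x y => ⁅x, y⁆) (simple S i) S

lemma centralMod_of_gens {K : Subgroup G} [K.Normal] {S : Set G} (hS : closure S = ⊤) {x : G}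
    (h : ∀ s ∈ S, ⁅x, s⁆ ∈ K) : x ∈ centralMod K := by
  rw [mem_centralMod]
  intro g
  rw [← commute_mk_iff]
  have hg : g ∈ closure S := hS ▸ mem_top g
  induction hg using closure_induction with
  | mem y hy => exact commute_mk_iff.2 (h y hy)
  | one => rw [map_one]; exact Commute.one_right _
  | mul a b _ _ ha hb => rw [map_mul]; exact ha.mul_right hb
  | inv a _ ha => rw [map_inv]; exact ha.inv_right

lemma normalClosure_simple {S : Finset G} (hS : closure (S : Set G) = ⊤) (i : ℕ) :
    normalClosure (simple S i : Set G) = lcs G i := by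
  classical
  induction i with
  | zero =>
    show normalClosure (S : Set G) = ⊤
    rw [← top_le_iff, ← hS]
    exact closure_le_normalClosure
  | succ i ih =>
    refine le_antisymm ?_ ?_
    · refine normalClosure_le_normal ?_
      intro z hz
      rw [Finset.mem_coe, simple] at hz
      obtain ⟨x, hx, y, -, rfl⟩ := Finset.mem_image₂.1 hz
      rw [SetLike.mem_coe, lcs_succ]
      refine commutator_mem_commutator ?_ (mem_top y)
      rw [← ih]
      exact subset_normalClosure hx
    · rw [lcs_succ, ← ih]
      refine commutator_le_of_le_centralMod (normalClosure_le_normal ?_)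
      intro x hx
      refine centralMod_of_gens hS fun s hs => subset_normalClosure ?_
      rw [Finset.mem_coe, simple]
      exact Finset.mem_image₂_of_mem hx hs

lemma lcs_eq_sup {S : Finset G} (hS : closure (S : Set G) = ⊤) (i : ℕ) :
    lcs G i = closure (simple S i : Set G) ⊔ lcs G (i + 1) := by
  have h1 : closure (simple S i : Set G) ≤ lcs G i := by
    rw [← normalClosure_simple hS i]
    exact closure_le_normalClosure
  refine le_antisymm ?_ (sup_le h1 (lcs_anti i))
  have : (closure (simple S i : Set G) ⊔ lcs G (i + 1)).Normal :=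
    normal_of_between (sup_le h1 (lcs_anti i)) le_sup_right
  conv_lhs => rw [← normalClosure_simple hS i]
  exact normalClosure_le_normal (Subgroup.subset_closure.trans
    (le_sup_left : closure (simple S i : Set G) ≤ closure (simple S i : Set G) ⊔ lcs G (i + 1)))

/-! ### Powers -/

/-- The subgroup generated by powers of a term and the next term. -/
def VV (G : Type*) [Group G] (e i : ℕ) : Subgroup G :=
  closure {x | ∃ y ∈ lcs G i, x = y ^ e} ⊔ lcs G (i + 1)

lemma VV_le (e i : ℕ) : VV G e i ≤ lcs G i := by
  refine sup_le ?_ (lcs_anti i)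
  rw [closure_le]
  rintro _ ⟨y, hy, rfl⟩
  exact pow_mem hy e

instance VV_normal (e i : ℕ) : (VV G e i).Normal := normal_of_between (VV_le e i) le_sup_right

lemma commutator_pow_of_central {a b : G} (h : ∀ z, Commute ⁅a, b⁆ z) (e : ℕ) :
    ⁅a ^ e, b⁆ = ⁅a, b⁆ ^ e := by
  induction e with
  | zero => simp
  | succ e ih =>
    have h1 : ⁅a ^ (e + 1), b⁆ = a * ⁅a ^ e, b⁆ * a⁻¹ * ⁅a, b⁆ := by
      rw [commutatorElement_def, commutatorElement_def, commutatorElement_def, pow_succ']
      group
    rw [h1, ih, pow_succ, ← ((h a).pow_left e).eq]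
    simp

lemma VV_step (e i : ℕ) : ⁅VV G e i, (⊤ : Subgroup G)⁆ ≤ VV G e (i + 1) := by
  refine commutator_le_of_le_centralMod (sup_le ?_ ?_)
  · rw [closure_le]
    rintro _ ⟨y, hy, rfl⟩
    rw [SetLike.mem_coe, mem_centralMod]
    intro g
    have h1 : ⁅y, g⁆ ∈ lcs G (i + 1) := commutator_mem_commutator hy (mem_top g)
    have h2 : ⁅y, g⁆ ^ e ∈ VV G e (i + 1) :=
      (le_sup_left : _ ≤ VV G e (i + 1)) (subset_closure ⟨_, h1, rfl⟩)
    let π := QuotientGroup.mk' (lcs G (i + 1 + 1))
    have h3 : ∀ z, Commute ⁅π y, π g⁆ z := by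
      intro z
      induction z using QuotientGroup.induction_on with
      | H z =>
        rw [← map_commutatorElement]
        exact commute_mk_iff.2 (commutator_mem_commutator h1 (mem_top z))
    have h4 := commutator_pow_of_central h3 e
    rw [← map_pow, ← map_commutatorElement, ← map_commutatorElement, ← map_pow,
      QuotientGroup.mk'_eq_mk'] at h4
    obtain ⟨z, hz, h5⟩ := h4
    have h6 : ⁅y ^ e, g⁆ = ⁅y, g⁆ ^ e * z⁻¹ := by rw [← h5]; group
    rw [h6]
    exact mul_mem h2 ((le_sup_right : _ ≤ VV G e (i + 1)) (inv_mem hz))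
  · intro z hz
    rw [mem_centralMod]
    intro g
    exact (le_sup_right : _ ≤ VV G e (i + 1)) (commutator_mem_commutator hz (mem_top g))

lemma lcs_VV_le (e : ℕ) (i : ℕ) : (VV G e 0).lowerCentralSeries i ≤ VV G e i := by
  induction i with
  | zero => exact le_rfl
  | succ i ih =>
    rw [Subgroup.lowerCentralSeries_succ]
    exact (commutator_mono ih le_top).trans (VV_step e i)

lemma VV_finiteIndex [Group.FG G] {e : ℕ} (he : 0 < e) : (VV G e 0).FiniteIndex := by
  have h1 : commutator G ≤ VV G e 0 := by
    have : lcs G 1 ≤ VV G e 0 := le_sup_right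
    exact this
  have hcomm : ∀ x y : G ⧸ VV G e 0, x * y = y * x := by
    intro x y
    induction x using QuotientGroup.induction_on with
    | H x =>
      induction y using QuotientGroup.induction_on with
      | H y =>
        have : ⁅x, y⁆ ∈ VV G e 0 := h1 (commutator_mem_commutator (mem_top x) (mem_top y))
        exact (commute_mk_iff.2 this).eq
  letI : CommGroup (G ⧸ VV G e 0) := { (inferInstance : Group (G ⧸ VV G e 0)) with
    mul_comm := hcomm }
  have hfg : Group.FG (G ⧸ VV G e 0) := QuotientGroup.fg _
  have : Finite (G ⧸ VV G e 0) := by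
    refine CommGroup.finite_of_fg_isMulTorsion _ fun x => ?_
    induction x using QuotientGroup.induction_on with
    | H x =>
      refine isOfFinOrder_iff_pow_eq_one.2 ⟨e, he, ?_⟩
      refine (QuotientGroup.eq_one_iff (x ^ e)).2 ?_
      exact (le_sup_left : _ ≤ VV G e 0) (subset_closure ⟨x, mem_top x, rfl⟩)
  exact ⟨Subgroup.index_ne_zero_of_finite⟩

/-! ### Virtual nilpotency -/

lemma virtNilp_of_finiteIndex {H : Subgroup G} (hH : H.FiniteIndex) (h : VirtNilp H) :
    VirtNilp G := by
  obtain ⟨K, hK, hnil⟩ := h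
  refine ⟨K.map H.subtype, ?_, ?_⟩
  · refine ⟨?_⟩
    rw [Subgroup.index_map_subtype]
    exact mul_ne_zero hK.index_ne_zero hH.index_ne_zero
  · exact Group.isNilpotent_congr (K.equivMapOfInjective H.subtype H.subtype_injective) |>.1 hnil

lemma nilpotent_of_le {H K : Subgroup G} (h : H ≤ K) (hK : Group.IsNilpotent K) :
    Group.IsNilpotent H :=
  Subgroup.isNilpotent_of_ker_le_center (inclusion h)
    (by rw [(MonoidHom.ker_eq_bot_iff _).2 (inclusion_injective h)]; exact bot_le)

/-- If a term of the lower central series of a finitely generated group is nilpotent and all pairs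
are good, the group is virtually nilpotent. -/
theorem virtNilp_of_lcs (c : ℕ) : ∀ (G : Type*) [Group G] [Group.FG G], AllGood G →
    Group.IsNilpotent (lcs G c) → VirtNilp G := by
  induction c with
  | zero =>
    intro G _ _ _ h
    exact ⟨⊤, inferInstance, h⟩
  | succ c ih =>
    intro G _ hfg hg h
    obtain ⟨S, hS⟩ := hfg.out
    obtain ⟨M1, hM1n, hN, hM, hnil, e, he, hpow⟩ := exists_nilpotent_of_good (lcs G (c + 1))
      (lcs G c) (lcs_anti c) le_rfl (simple S c) (lcs_eq_sup hS c) (simple S (c + 1))
      (normalClosure_simple hS (c + 1)) h hg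
    have hV : VV G e c ≤ M1 := by
      refine sup_le ?_ hN
      rw [closure_le]
      rintro _ ⟨y, hy, rfl⟩
      exact hpow y hy
    have hfin : (VV G e 0).FiniteIndex := VV_finiteIndex he
    refine virtNilp_of_finiteIndex hfin (ih (VV G e 0) (hg.subgroup _) ?_)
    have h1 : (lcs (VV G e 0) c).map (VV G e 0).subtype ≤ M1 := by
      rw [top_subtype_lowerCentralSeries]
      exact (lcs_VV_le e c).trans hV
    have h2 := nilpotent_of_le h1 hnil
    exact (Group.isNilpotent_congr ((lcs (VV G e 0) c).equivMapOfInjective (VV G e 0).subtype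
      (VV G e 0).subtype_injective)).2 h2

end Pool.Agent.Helper87.SSP2

namespace Pool.Agent.Helper87.SSP2

open Subgroup Pool.Agent.Helper87.SSP

/-- A finitely generated solvable group all of whose pairs are good is virtually nilpotent. -/
theorem virtNilp_of_derivedSeries (n : ℕ) : ∀ (G : Type*) [Group G] [Group.FG G], AllGood G →
    derivedSeries G n = ⊥ → VirtNilp G := by
  induction n with
  | zero =>
    intro G _ _ _ h
    rw [derivedSeries_zero] at h
    refine ⟨⊥, ?_, ?_⟩
    · rw [← h]; infer_instance
    · infer_instance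
  | succ n ih =>
    intro G _ hfg hg h
    set A := derivedSeries G n with hA
    have hAA : ⁅A, A⁆ = ⊥ := by rw [hA, ← derivedSeries_succ, h]
    have hAn : Group.IsNilpotent A :=
      (isNilpotent_iff_lowerCentralSeries A).2 ⟨1, hAA⟩
    let π := QuotientGroup.mk' A
    have hπ : Function.Surjective π := QuotientGroup.mk'_surjective A
    obtain ⟨H, hH, hHn⟩ := ih (G ⧸ A) (hg.of_surjective hπ) (by
      rw [← map_derivedSeries_eq hπ, ← hA, Subgroup.map_eq_bot_iff, QuotientGroup.ker_mk'])
    obtain ⟨c, hc⟩ := (isNilpotent_iff_lowerCentralSeries H).1 hHn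
    have hfin : (H.comap π).FiniteIndex := by
      refine ⟨?_⟩
      rw [Subgroup.index_comap_of_surjective _ hπ]
      exact hH.index_ne_zero
    refine virtNilp_of_finiteIndex hfin (virtNilp_of_lcs c (H.comap π) (hg.subgroup _) ?_)
    have h1 : (lcs (H.comap π) c).map (H.comap π).subtype ≤ A := by
      rw [top_subtype_lowerCentralSeries]
      have h2 : (H.comap π).lowerCentralSeries c ≤ π.ker := by
        rw [← Subgroup.map_eq_bot_iff,
          Subgroup.map_lowerCentralSeries, Subgroup.map_comap_eq_self_of_surjective hπ, hc]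
      exact h2.trans (QuotientGroup.ker_mk' A).le
    exact (Group.isNilpotent_congr ((lcs (H.comap π) c).equivMapOfInjective (H.comap π).subtype
      (H.comap π).subtype_injective)).2 (nilpotent_of_le h1 hAn)

/-- A finitely generated solvable group that is not virtually nilpotent has a bad pair. -/
theorem exists_not_goodPair {G : Type*} [Group G] (H : Subgroup G) (hfg : H.FG)
    (hs : Group.IsSolvable H) (hH : ¬ VirtNilp H) : ∃ t a : G, ¬ GoodPair t a := by
  have hfg' : Group.FG H := (Group.fg_iff_subgroup_fg H).2 hfg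
  by_contra hcon
  push Not at hcon
  obtain ⟨n, hn⟩ := hs.solvable
  exact hH (virtNilp_of_derivedSeries n H (AllGood.subgroup hcon H) hn)

end Pool.Agent.Helper87.SSP2
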