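import Pool.Agent.Helper87.SSP2.Stage
import Pool.Agent.Helper87.SSP2.Lcs

/-!
# The exact gadgets
-/

namespace Pool.Agent.Helper87.SSP2

open Subgroup
open Pool.Agent.Helper87.SSP (Word ev ev_append ev_winv winv ev_nil wpow wD ev_wpow VirtNilp)

variable {G : Type*} [Group G] {g : ℕ} {s : Fin g → G} {t a : G}

lemma length_winv (u : Word g) : (winv u).length = u.length := by simp [winv]

lemma length_wpow (u : Word g) (k : ℕ) : (wpow u k).length = k * u.length := by
  unfold wpow
  rw [List.length_flatMap]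
  simp [List.map_const', List.sum_replicate]

lemma length_wD (τ α : Word g) (k : ℕ) : (wD τ α k).length = 2 * k * τ.length + α.length := by
  rw [wD, List.length_append, List.length_append, length_winv, length_wpow]
  ring

lemma ev_wD' (τ α : Word g) (k : ℕ) : ev s (wD τ α k) = DD (ev s τ) (ev s α) k := by
  rw [wD, ev_append, ev_append, ev_winv, ev_wpow, DD, mul_assoc]

lemma Stage.mono {N j ℓ ℓ' b b' : ℕ} (h : Stage s t a N j ℓ b) (hℓ : ℓ ≤ ℓ') (hb : b ≤ b') :
    Stage s t a N j ℓ' b' := by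
  obtain ⟨X, Q, W, h1, h2, h3, h4, h5, h6⟩ := h
  refine ⟨X, Q, W, fun r i hr hi => (h1 r i hr hi).trans hℓ, fun i hi => (h2 i hi).trans hℓ,
    fun w hw => (h3 w hw).trans hℓ, h4.trans hb, h5, fun n m hn hm A hc => ?_⟩
  obtain ⟨l, hl, z, hz, hB, he⟩ := h6 n m hn hm A hc
  exact ⟨l, hl, z, hz, hB.mono hℓ, he⟩

/-- The first stage. -/
theorem stage_init {τ α : Word g} (hτ : ev s τ = t) (hα : ev s α = a) (hb : ¬ GoodPair t a)
    (N : ℕ) : Stage s t a N 1
      ((2 * N + 1) * (2 * (N + 1) * (N + 1) * (N + 1) * (τ.length + α.length))) 0 := by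
  have hX : (fun r i => ev s (wD τ α ((r * N + i) * N + i))) = X0 t a N := by
    funext r i
    rw [ev_wD', hτ, hα]; rfl
  have hQ : (fun _ : ℕ => ev s τ) = fun _ => t := by funext _; exact hτ
  refine stage_of_dis (ℓ := 2 * (N + 1) * (N + 1) * (N + 1) * (τ.length + α.length))
    (X := fun r i => wD τ α ((r * N + i) * N + i)) (Q := fun _ => τ) ?_ ?_ ?_ ?_ ?_ ?_ ?_
  · intro r i hr hi
    rw [length_wD]
    have h1 : (r * N + i) * N + i ≤ (N + 1) * (N + 1) * (N + 1) := by nlinarith
    have h2 : 2 * ((r * N + i) * N + i) * τ.length ≤ 2 * ((N + 1) * (N + 1) * (N + 1)) * τ.length :=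
      Nat.mul_le_mul_right _ (Nat.mul_le_mul_left _ h1)
    have h3 : α.length ≤ 2 * ((N + 1) * (N + 1) * (N + 1)) * α.length :=
      Nat.le_mul_of_pos_left _ (by positivity)
    calc _ ≤ 2 * ((N + 1) * (N + 1) * (N + 1)) * τ.length +
          2 * ((N + 1) * (N + 1) * (N + 1)) * α.length := add_le_add h2 h3
      _ = _ := by ring
  · intro i hi
    show τ.length ≤ _
    have h3 : τ.length + α.length ≤ 2 * (N + 1) * (N + 1) * (N + 1) * (τ.length + α.length) :=
      Nat.le_mul_of_pos_left _ (by positivity)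
    omega
  · intro r i hr hi
    have := congrFun (congrFun hX r) i
    rw [this]
    exact DD_mem t a _
  · rw [hX]; exact dis_level0 hb N
  · intro n m hn hm A z hz J Ks hJ hK h
    rw [hX, hQ] at h
    exact fst_level0 hb hm hJ hK hz h
  · exact Nat.le_mul_of_pos_left _ (by omega)
  · exact Nat.mul_le_mul_right _ (by omega)

/-- All stages, with polynomial bounds. -/
theorem stage_all {τ α : Word g} (hτ : ev s τ = t) (hα : ev s α = a) (hb : ¬ GoodPair t a)
    (j : ℕ) : ∃ P : Polynomial ℕ, ∀ N, (N + 1) * (τ.length + α.length) ≤ P.eval N ∧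
      Stage s t a N (j + 1) (P.eval N) (P.eval N) := by
  induction j with
  | zero =>
    refine ⟨(2 * Polynomial.X + 1) * (2 * (Polynomial.X + 1) * (Polynomial.X + 1) *
      (Polynomial.X + 1) * Polynomial.C (τ.length + α.length)), fun N => ?_⟩
    simp only [Polynomial.eval_mul, Polynomial.eval_add, Polynomial.eval_X, Polynomial.eval_one,
      Polynomial.eval_C, Polynomial.eval_ofNat]
    refine ⟨?_, (stage_init hτ hα hb N).mono le_rfl (Nat.zero_le _)⟩
    have h1 : (2 * N + 1) * (2 * (N + 1) * (N + 1) * (N + 1) * (τ.length + α.length)) =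
      ((2 * N + 1) * 2 * (N + 1) * (N + 1)) * ((N + 1) * (τ.length + α.length)) := by ring
    rw [h1]
    exact Nat.le_mul_of_pos_left _ (by positivity)
  | succ j ih =>
    obtain ⟨P, hP⟩ := ih
    refine ⟨(2 * Polynomial.X * Polynomial.X + 2 * Polynomial.X + 1) * P +
      2 * (Polynomial.X * Polynomial.X), fun N => ?_⟩
    obtain ⟨h1, h2⟩ := hP N
    simp only [Polynomial.eval_mul, Polynomial.eval_add, Polynomial.eval_X, Polynomial.eval_one,
      Polynomial.eval_ofNat]
    have h3 : P.eval N ≤ (2 * N * N + 2 * N + 1) * P.eval N :=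
      Nat.le_mul_of_pos_left _ (by positivity)
    refine ⟨by omega, (h2.step hτ hα hb (by omega) h1).mono (by omega) (by omega)⟩

/-- The exact gadgets. -/
theorem exists_words {τ α : Word g} (hτ : ev s τ = t) (hα : ev s α = a) (hb : ¬ GoodPair t a)
    {d : ℕ} (hd : KK t a d = ⊥) : ∃ P : Polynomial ℕ, ∀ N,
      ∃ (X : ℕ → ℕ → Word g) (Q : ℕ → Word g) (W : List (Word g)),
        (∀ r i, r < N → i < N → (X r i).length ≤ P.eval N) ∧
        (∀ i < N, (Q i).length ≤ P.eval N) ∧ (∀ w ∈ W, w.length ≤ P.eval N) ∧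
        W.length ≤ P.eval N ∧ ∀ n m, n ≤ N → m ≤ N → ∀ A, (∃ l : List G,
          l.Sublist (W.map (ev s) ++ gList (fun r i => ev s (X r i)) (fun i => ev s (Q i)) n m A) ∧
            l.prod = PP (fun i => ev s (Q i)) m) ↔ Cov n m A := by
  obtain ⟨P, hP⟩ := stage_all hτ hα hb d
  refine ⟨P, fun N => ?_⟩
  have hd' : KK t a (d + 1) = ⊥ := by
    rw [← le_bot_iff, ← hd]; exact KK_anti t a (Nat.le_succ d)
  obtain ⟨X, Q, W, h1, h2, h3, h4, h5, h6⟩ := (hP N).2
  refine ⟨X, Q, W, h1, h2, h3, h4, fun n m hn hm A => ⟨?_, ?_⟩⟩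
  · rintro ⟨l, hl, he⟩
    exact h5 n m hn hm A 1 (one_mem _) l hl (by rw [one_mul, he])
  · intro hc
    obtain ⟨l, hl, z, hz, -, he⟩ := h6 n m hn hm A hc
    rw [hd', Subgroup.mem_bot] at hz
    exact ⟨l, hl, by rw [he, hz, one_mul]⟩

/-- A finitely generated solvable group that is not virtually nilpotent has a bad pair, whose
orbit subgroup is solvable. -/
theorem exists_bad {G : Type*} [Group G] (H : Subgroup G) (hfg : H.FG)
    (hs : Group.IsSolvable H) (hH : ¬ VirtNilp H) : ∃ (t a : G) (d : ℕ), ¬ GoodPair t a ∧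
      KK t a d = ⊥ := by
  have hfg' : Group.FG H := (Group.fg_iff_subgroup_fg H).2 hfg
  by_contra hcon
  push Not at hcon
  obtain ⟨n, hn⟩ := hs.solvable
  refine hH (virtNilp_of_derivedSeries n H (fun t a => ?_) hn)
  by_contra hb
  have hb' : ¬ GoodPair (t : G) (a : G) := fun h => hb (GoodPair.of_map H.subtype
    H.subtype_injective h)
  refine hcon t a n hb' ?_
  have h1 : ∀ j, KK (t : G) (a : G) j ≤ (derivedSeries H j).map H.subtype := by
    intro j
    induction j with
    | zero =>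
      rw [derivedSeries_zero]
      show orb (H.subtype t) (H.subtype a) ≤ _
      rw [← map_orb]
      exact Subgroup.map_mono le_top
    | succ j ih =>
      rw [KK, derivedSeries_succ, map_commutator]
      exact commutator_mono ih ih
  have h2 := h1 n
  rw [hn, Subgroup.map_bot] at h2
  exact le_bot_iff.1 h2

end Pool.Agent.Helper87.SSP2
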