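import Pool.Agent.Helper87.SSP2.Pairs
import Pool.Agent.Helper87.SSP.Hall

/-!
# Central extensions of nilpotent normal subgroups in groups all of whose pairs are good
-/

namespace Pool.Agent.Helper87.SSP2

open Polynomial Subgroup Pool.Agent.Helper87.SSP

variable {G : Type*} [Group G]

lemma aeval_commute {E : Type*} [Ring E] {x y : E} (h : Commute x y) (P : ℤ[X]) :
    Commute (aeval x P) y := by
  induction P using Polynomial.induction_on' with
  | add p q hp hq => rw [map_add]; exact hp.add_left hq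
  | monomial n a =>
    rw [aeval_monomial]
    exact Commute.mul_left (Algebra.commutes a y) (h.pow_left n)

/-- An operator that commutes with the group and kills normal generators is zero. -/
lemma eq_zero_of_gens (N : Subgroup G) [hN : N.Normal] {F : Set G} (hF : normalClosure F = N)
    {T : AddMonoid.End (AbS N)} (hT : ∀ g, Commute T (act N g)) (h : ∀ a ∈ F, T (cls N a) = 0) :
    T = 0 := by
  let D : Subgroup G :=
    { carrier := {x | x ∈ N ∧ T (cls N x) = 0}
      one_mem' := ⟨one_mem _, by rw [cls_one, map_zero]⟩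
      mul_mem' := by
        rintro x y ⟨hx, h1⟩ ⟨hy, h2⟩
        exact ⟨mul_mem hx hy, by rw [cls_mul N hx hy, map_add, h1, h2, add_zero]⟩
      inv_mem' := by
        rintro x ⟨hx, h1⟩
        exact ⟨inv_mem hx, by rw [cls_inv, map_neg, h1, neg_zero]⟩ }
  have hD : D.Normal := by
    refine ⟨?_⟩
    rintro x ⟨hx, h1⟩ g
    refine ⟨hN.conj_mem x hx g, ?_⟩
    rw [← act_cls]
    have := DFunLike.congr_fun (hT g).eq (cls N x)
    change T (act N g (cls N x)) = act N g (T (cls N x)) at this
    rw [this, h1, map_zero]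
  have hle : normalClosure F ≤ D :=
    normalClosure_le_normal fun x hx => ⟨hF ▸ subset_normalClosure hx, h x hx⟩
  refine AddMonoidHom.ext fun a => ?_
  obtain ⟨x, hx, rfl⟩ := exists_cls N a
  exact (hle (hF ▸ hx)).2

section K

variable (N M : Subgroup G) [hN : N.Normal] (hc : ⁅M, (⊤ : Subgroup G)⁆ ≤ N)

include hc in
lemma flats_of_good {F : Finset G} (hF : normalClosure (F : Set G) = N) (hg : AllGood G) {m : G}
    (hm : m ∈ M) : ∃ l : List ℤ[X], (∀ P ∈ l, Flat P) ∧ aeval (act N m) l.prod = 0 := by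
  classical
  have key : ∀ F : Finset G, (∀ a ∈ F, a ∈ N) → ∃ l : List ℤ[X], (∀ P ∈ l, Flat P) ∧
      ∀ a ∈ F, aeval (act N m) l.prod (cls N a) = 0 := by
    intro F
    induction F using Finset.induction_on with
    | empty => intro _; exact ⟨[], by simp, by simp⟩
    | insert b F _ ih =>
      intro hF
      obtain ⟨l, hl, h⟩ := ih fun a ha => hF a (Finset.mem_insert_of_mem ha)
      obtain ⟨P, hP, h0⟩ := (hg m b).exists_flat N (hF b (Finset.mem_insert_self _ _))
      refine ⟨P :: l, ?_, ?_⟩
      · intro Q hQ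
        rcases List.mem_cons.1 hQ with rfl | hQ
        · exact hP
        · exact hl Q hQ
      · intro a ha
        rw [List.prod_cons]
        rcases Finset.mem_insert.1 ha with rfl | ha
        · rw [mul_comm, map_mul]
          show aeval (act N m) _ (aeval (act N m) _ _) = 0
          rw [h0, map_zero]
        · rw [map_mul]
          show aeval (act N m) _ (aeval (act N m) _ _) = 0
          rw [h a ha, map_zero]
  obtain ⟨l, hl, h⟩ := key F fun a ha => hF ▸ subset_normalClosure ha
  exact ⟨l, hl, eq_zero_of_gens N hF (fun g => aeval_commute (act_commute N hc hm g) _) h⟩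

/-- The quotient is commutative. -/
lemma quot_comm (hc' : ⁅M, M⁆ ≤ N) (x y : M ⧸ N.subgroupOf M) : x * y = y * x := by
  induction x using QuotientGroup.induction_on with
  | H x =>
    induction y using QuotientGroup.induction_on with
    | H y =>
      rw [← QuotientGroup.mk_mul, ← QuotientGroup.mk_mul, QuotientGroup.eq]
      rw [Subgroup.mem_subgroupOf]
      have h1 : (y : G)⁻¹ * (x : G)⁻¹ * ((y : G)⁻¹)⁻¹ * ((x : G)⁻¹)⁻¹ ∈ N :=
        hc' (commutator_mem_commutator (inv_mem y.2) (inv_mem x.2))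
      simpa [mul_assoc] using h1

/-- The action of the quotient. -/
def rho : (M ⧸ N.subgroupOf M) →* AddMonoid.End (AbS N) :=
  QuotientGroup.lift (N.subgroupOf M) ((act N).comp M.subtype) fun x hx => by
    rw [Subgroup.mem_subgroupOf] at hx
    exact act_of_mem N hx

lemma rho_mk (m : M) : rho N M (QuotientGroup.mk m) = act N (m : G) := rfl

/-- The products of differences. -/
def BB (K : Subgroup (M ⧸ N.subgroupOf M)) (j : ℕ) : AddSubgroup (AbS N) :=
  AddSubgroup.closure {b | ∃ l : List (M ⧸ N.subgroupOf M), (∀ q ∈ l, q ∈ K) ∧ l.length = j ∧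
    ∃ a, b = (l.map fun q => rho N M q - 1).prod a}

lemma BB_step (K : Subgroup (M ⧸ N.subgroupOf M)) (j : ℕ) {b : AbS N} (hb : b ∈ BB N M K j)
    {q : M ⧸ N.subgroupOf M} (hq : q ∈ K) : (rho N M q - 1) b ∈ BB N M K (j + 1) := by
  unfold BB at hb
  induction hb using AddSubgroup.closure_induction with
  | mem b hb =>
    obtain ⟨l, hl, hlen, a, rfl⟩ := hb
    refine AddSubgroup.subset_closure ⟨q :: l, ?_, by simp [hlen], a, ?_⟩
    · intro p hp
      rcases List.mem_cons.1 hp with rfl | hp
      · exact hq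
      · exact hl p hp
    · rw [List.map_cons, List.prod_cons]; rfl
  | zero => rw [map_zero]; exact zero_mem _
  | add x y _ _ hx hy => rw [map_add]; exact add_mem hx hy
  | neg x _ hx => rw [map_neg]; exact neg_mem hx

end K

/-- **Theorem K.** -/
theorem exists_nilpotent_of_good (N M : Subgroup G) [hN : N.Normal] [hM : M.Normal] (hNM : N ≤ M)
    (hc : ⁅M, (⊤ : Subgroup G)⁆ ≤ N) (S : Finset G) (hS : M = closure (S : Set G) ⊔ N)
    (F : Finset G) (hF : normalClosure (F : Set G) = N) (hnil : Group.IsNilpotent N)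
    (hg : AllGood G) : ∃ M1 : Subgroup G, M1.Normal ∧ N ≤ M1 ∧ M1 ≤ M ∧ Group.IsNilpotent M1 ∧
      ∃ e : ℕ, 0 < e ∧ ∀ m ∈ M, m ^ e ∈ M1 := by
  have hc' : ⁅M, M⁆ ≤ N := (commutator_mono le_rfl le_top).trans hc
  have hSM : closure (S : Set G) ≤ M := by rw [hS]; exact le_sup_left
  have hfg : Group.FG (M ⧸ N.subgroupOf M) := by
    let f : closure (S : Set G) →* M ⧸ N.subgroupOf M :=
      (QuotientGroup.mk' (N.subgroupOf M)).comp (Subgroup.inclusion hSM)
    refine Group.fg_of_surjective (f := f) ?_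
    intro q
    induction q using QuotientGroup.induction_on with
    | H m =>
      have hm : (m : G) ∈ closure (S : Set G) ⊔ N := hS ▸ m.2
      rw [Subgroup.mem_sup_of_normal_right] at hm
      obtain ⟨y, hy, z, hz, hyz⟩ := hm
      refine ⟨⟨y, hy⟩, ?_⟩
      show QuotientGroup.mk (Subgroup.inclusion hSM ⟨y, hy⟩) = QuotientGroup.mk m
      rw [QuotientGroup.eq, Subgroup.mem_subgroupOf]
      have : (y : G)⁻¹ * m = z := by rw [← hyz]; group
      simpa [this] using hz
  obtain ⟨K, hK, k, hk⟩ := exists_unipotent' (quot_comm N M hc') (rho N M) (by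
    intro q
    induction q using QuotientGroup.induction_on with
    | H m =>
      rw [rho_mk]
      exact flats_of_good N M hc hF hg m.2)
  let M1 : Subgroup G := (K.comap (QuotientGroup.mk' (N.subgroupOf M))).map M.subtype
  have hM1 : ∀ x : G, x ∈ M1 ↔ ∃ hx : x ∈ M, (QuotientGroup.mk (⟨x, hx⟩ : M) :
      M ⧸ N.subgroupOf M) ∈ K := by
    intro x
    constructor
    · rintro ⟨m, hm, rfl⟩
      exact ⟨m.2, hm⟩
    · rintro ⟨hx, h⟩
      exact ⟨⟨x, hx⟩, h, rfl⟩
  have hNM1 : N ≤ M1 := by
    intro x hx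
    rw [hM1]
    refine ⟨hNM hx, ?_⟩
    have : (QuotientGroup.mk (⟨x, hNM hx⟩ : M) : M ⧸ N.subgroupOf M) = 1 := by
      rw [QuotientGroup.eq_one_iff, Subgroup.mem_subgroupOf]; exact hx
    rw [this]; exact one_mem K
  have hM1M : M1 ≤ M := fun x hx => ((hM1 x).1 hx).1
  have hM1n : M1.Normal := by
    refine ⟨fun x hx g => ?_⟩
    have h1 : g * x * g⁻¹ * x⁻¹ ∈ N := by
      have h2 : x * g * x⁻¹ * g⁻¹ ∈ N := hc (commutator_mem_commutator (hM1M hx) (mem_top g))
      have h3 := inv_mem h2
      have h4 := hN.conj_mem _ h3 1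
      simpa [mul_assoc] using h4
    have h2 : g * x * g⁻¹ = (g * x * g⁻¹ * x⁻¹) * x := by group
    rw [h2]
    exact mul_mem (hNM1 h1) hx
  refine ⟨M1, hM1n, hNM1, hM1M, ?_, K.index, Nat.pos_of_ne_zero hK.index_ne_zero, ?_⟩
  · -- Hall's criterion
    have hitc : ∀ j, ∀ x ∈ itc M1 N j, x ∈ N ∧ cls N x ∈ BB N M K j := by
      intro j
      induction j with
      | zero =>
        intro x hx
        refine ⟨hx, AddSubgroup.subset_closure ⟨[], by simp, rfl, cls N x, by simp⟩⟩
      | succ j ih =>
        let D : Subgroup G :=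
          { carrier := {x | x ∈ N ∧ cls N x ∈ BB N M K (j + 1)}
            one_mem' := ⟨one_mem _, by rw [cls_one]; exact zero_mem _⟩
            mul_mem' := by
              rintro x y ⟨hx, h1⟩ ⟨hy, h2⟩
              exact ⟨mul_mem hx hy, by rw [cls_mul N hx hy]; exact add_mem h1 h2⟩
            inv_mem' := by
              rintro x ⟨hx, h1⟩
              exact ⟨inv_mem hx, by rw [cls_inv]; exact neg_mem h1⟩ }
        have hle : itc M1 N (j + 1) ≤ D := by
          rw [itc, commutator_le]
          intro x hx h hh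
          obtain ⟨hxN, h1⟩ := ih x hx
          obtain ⟨hhM, hhK⟩ := (hM1 h).1 hh
          have e : x * h * x⁻¹ * h⁻¹ = x * (h * x⁻¹ * h⁻¹) := by group
          show x * h * x⁻¹ * h⁻¹ ∈ D
          rw [e]
          have hN2 : h * x⁻¹ * h⁻¹ ∈ N := hN.conj_mem _ (inv_mem hxN) h
          refine ⟨mul_mem hxN hN2, ?_⟩
          have e2 : cls N (x * (h * x⁻¹ * h⁻¹)) =
              -((rho N M (QuotientGroup.mk (⟨h, hhM⟩ : M)) - 1) (cls N x)) := by
            rw [cls_mul N hxN hN2, ← act_cls, cls_inv, map_neg, rho_mk]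
            show _ = -(act N h (cls N x) - cls N x)
            abel
          rw [e2]
          exact neg_mem (BB_step N M K j h1 hhK)
        exact fun x hx => hle hx
    refine hall_nilpotent M1 N hnil (r := k) ?_ ?_
    · exact (commutator_mono hM1M hM1M).trans hc'
    · intro x hx
      obtain ⟨hxN, h1⟩ := hitc k x hx
      rw [← cls_eq_zero_iff N hxN]
      have h2 : BB N M K k ≤ ⊥ := by
        unfold BB
        rw [AddSubgroup.closure_le]
        rintro b ⟨l, hl, hlen, a, rfl⟩
        rw [hk l hl hlen]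
        rfl
      simpa using h2 h1
  · intro m hm
    rw [hM1]
    refine ⟨pow_mem hm _, ?_⟩
    have hKn : K.Normal := ⟨fun x hx g => by rwa [quot_comm N M hc' g x, mul_inv_cancel_right]⟩
    exact K.pow_index_mem (QuotientGroup.mk (⟨m, hm⟩ : M))

end Pool.Agent.Helper87.SSP2
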