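import Pool.Agent.Helper87.SSP2.Levels
import Pool.Agent.Helper87.SSP.Words

/-!
# Rich and poor levels
-/

namespace Pool.Agent.Helper87.SSP2

open Subgroup
open Pool.Agent.Helper87.SSP (Word ev ev_append ev_winv winv ev_nil)

variable {G : Type*} [Group G]

/-- The first `k` members of a family are dissociated. -/
def DisF (K : Subgroup G) (f : ℕ → G) (k : ℕ) : Prop :=
  ∀ Xs Ys : List ℕ, Xs.Nodup → Ys.Nodup → (∀ x ∈ Xs, x < k) → (∀ x ∈ Ys, x < k) →
    (Xs.map fun x => cls K (f x)).sum = (Ys.map fun x => cls K (f x)).sum →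
    ∀ x, x ∈ Xs ↔ x ∈ Ys

lemma disF_congr {K : Subgroup G} {f h : ℕ → G} {k : ℕ} (hfh : ∀ x < k, f x = h x)
    (hf : DisF K f k) : DisF K h k := by
  intro Xs Ys h1 h2 h3 h4 h5
  refine hf Xs Ys h1 h2 h3 h4 ?_
  have e : ∀ l : List ℕ, (∀ x ∈ l, x < k) →
      (l.map fun x => cls K (f x)).sum = (l.map fun x => cls K (h x)).sum := by
    intro l hl
    congr 1
    exact List.map_congr_left fun x hx => by rw [hfh x (hl x hx)]
  rw [e Xs h3, e Ys h4, h5]

lemma sum_erase {M : Type*} [AddCommGroup M] (f : ℕ → M) {l : List ℕ} {k : ℕ} (hk : k ∈ l) :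
    (l.map f).sum = f k + ((l.erase k).map f).sum := by
  rw [← List.sum_cons, ← List.map_cons (f := f)]
  exact ((List.perm_cons_erase hk).map f).sum_eq

/-- If a dissociated family cannot be extended by an element, the element is a difference of two
sums of members of the family. -/
lemma exists_repr {K : Subgroup G} {f : ℕ → G} {k : ℕ} (hf : DisF K f k)
    (hnot : ¬ DisF K f (k + 1)) : ∃ Us Vs : List ℕ, Us.Nodup ∧ Vs.Nodup ∧ (∀ x ∈ Us, x < k) ∧
      (∀ x ∈ Vs, x < k) ∧ cls K (f k) = (Us.map fun x => cls K (f x)).sum -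
        (Vs.map fun x => cls K (f x)).sum := by
  unfold DisF at hnot
  push Not at hnot
  obtain ⟨Xs, Ys, h1, h2, h3, h4, h5, x, hx⟩ := hnot
  have hlt : ∀ l : List ℕ, l.Nodup → (∀ x ∈ l, x < k + 1) → ∀ x ∈ l.erase k, x < k := by
    intro l hl hl' x hx
    rw [hl.mem_erase_iff] at hx
    have := hl' x hx.2
    omega
  have hlt' : ∀ l : List ℕ, k ∉ l → (∀ x ∈ l, x < k + 1) → ∀ x ∈ l, x < k := by
    intro l hl hl' x hx
    have h6 := hl' x hx
    have h7 : x ≠ k := fun h => hl (h ▸ hx)
    omega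
  by_cases hX : k ∈ Xs
  · by_cases hY : k ∈ Ys
    · exfalso
      rw [sum_erase _ hX, sum_erase _ hY] at h5
      have h6 := hf _ _ (h1.erase k) (h2.erase k) (hlt _ h1 h3) (hlt _ h2 h4)
        (add_left_cancel h5) x
      rw [h1.mem_erase_iff, h2.mem_erase_iff] at h6
      by_cases hxk : x = k
      · subst hxk
        rcases hx with ⟨-, h⟩ | ⟨h, -⟩
        · exact h hY
        · exact h hX
      · rcases hx with ⟨h, h'⟩ | ⟨h, h'⟩
        · exact h' (h6.1 ⟨hxk, h⟩).2
        · exact h (h6.2 ⟨hxk, h'⟩).2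
    · refine ⟨Ys, Xs.erase k, h2, h1.erase k, hlt' _ hY h4, hlt _ h1 h3, ?_⟩
      rw [sum_erase _ hX] at h5
      rw [← h5]; abel
  · by_cases hY : k ∈ Ys
    · refine ⟨Xs, Ys.erase k, h1, h2.erase k, hlt' _ hX h3, hlt _ h2 h4, ?_⟩
      rw [sum_erase _ hY] at h5
      rw [h5]; abel
    · exfalso
      have h6 := hf _ _ h1 h2 (hlt' _ hX h3) (hlt' _ hY h4) h5 x
      rcases hx with ⟨h, h'⟩ | ⟨h, h'⟩
      · exact h' (h6.1 h)
      · exact h (h6.2 h')

/-- The products of sublists realise the sums. -/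
lemma exists_sublist_sum {M : Type*} [AddCommGroup M] (f : ℕ → M) {k : ℕ} {Us : List ℕ}
    (hU : Us.Nodup) (hU' : ∀ x ∈ Us, x < k) :
    ∃ l : List ℕ, l.Sublist (List.range k) ∧ (l.map f).sum = (Us.map f).sum := by
  refine ⟨(List.range k).filter fun x => decide (x ∈ Us), List.filter_sublist, ?_⟩
  refine (List.Perm.map f ?_).sum_eq
  rw [List.perm_ext_iff_of_nodup (List.nodup_range.filter _) hU]
  intro x
  rw [List.mem_filter, List.mem_range]
  constructor
  · rintro ⟨-, h⟩; simpa using h
  · intro h; exact ⟨hU' x h, by simpa using h⟩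

section words

variable {g : ℕ} (s : Fin g → G)

/-- The elements represented by short words. -/
def Ball (ℓ : ℕ) (x : G) : Prop := ∃ w : Word g, w.length ≤ ℓ ∧ ev s w = x

variable {s}

lemma Ball.mono {ℓ ℓ' : ℕ} {x : G} (h : Ball s ℓ x) (hle : ℓ ≤ ℓ') : Ball s ℓ' x := by
  obtain ⟨w, h1, h2⟩ := h
  exact ⟨w, h1.trans hle, h2⟩

lemma Ball.mul {ℓ ℓ' : ℕ} {x y : G} (hx : Ball s ℓ x) (hy : Ball s ℓ' y) :
    Ball s (ℓ + ℓ') (x * y) := by
  obtain ⟨u, h1, rfl⟩ := hx
  obtain ⟨v, h3, rfl⟩ := hy
  exact ⟨u ++ v, by rw [List.length_append]; omega, ev_append s u v⟩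

lemma Ball.inv {ℓ : ℕ} {x : G} (hx : Ball s ℓ x) : Ball s ℓ x⁻¹ := by
  obtain ⟨u, h1, rfl⟩ := hx
  exact ⟨winv u, by simpa [winv] using h1, ev_winv s u⟩

lemma Ball.prod {ℓ : ℕ} {l : List G} (h : ∀ x ∈ l, Ball s ℓ x) : Ball s (l.length * ℓ) l.prod := by
  induction l with
  | nil => exact ⟨[], by simp, rfl⟩
  | cons x l ih =>
    rw [List.prod_cons, List.length_cons, add_mul, one_mul, add_comm]
    exact (h x List.mem_cons_self).mul (ih fun y hy => h y (List.mem_cons_of_mem _ hy))

end words

section stage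

variable {g : ℕ} (s : Fin g → G) (t a : G)

/-- The data of a gadget that is correct up to an error in a term of the derived series. -/
def Stage (N j ℓ b : ℕ) : Prop :=
  ∃ (X : ℕ → ℕ → Word g) (Q : ℕ → Word g) (W : List (Word g)),
    (∀ r i, r < N → i < N → (X r i).length ≤ ℓ) ∧ (∀ i < N, (Q i).length ≤ ℓ) ∧
    (∀ w ∈ W, w.length ≤ ℓ) ∧ W.length ≤ b ∧
    (∀ n m, n ≤ N → m ≤ N → ∀ A, ∀ z ∈ KK t a j, ∀ l : List G,
      l.Sublist (W.map (ev s) ++ gList (fun r i => ev s (X r i)) (fun i => ev s (Q i)) n m A) →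
      z * l.prod = PP (fun i => ev s (Q i)) m → Cov n m A) ∧
    (∀ n m, n ≤ N → m ≤ N → ∀ A, Cov n m A → ∃ l : List G,
      l.Sublist (W.map (ev s) ++ gList (fun r i => ev s (X r i)) (fun i => ev s (Q i)) n m A) ∧
      ∃ z ∈ KK t a j, Ball s ℓ z ∧ l.prod = z * PP (fun i => ev s (Q i)) m)

variable {s t a}

/-- Splitting a sublist of the list of the gadget. -/
lemma split_gList {X : ℕ → ℕ → G} {Q : ℕ → G} {n m : ℕ} {A : ℕ → ℕ → Bool} {l : List G}
    (h : l.Sublist (gList X Q n m A)) : ∃ (J : List ℕ) (Ks : List (ℕ × ℕ)), J.Sublist (List.range n) ∧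
      Ks.Sublist (pairs n m) ∧ l.prod = (J.map (setEl X m A)).prod * (Ks.map (eraseEl X Q)).prod := by
  unfold gList at h
  obtain ⟨p1, p2, rfl, hp1, hp2⟩ := List.sublist_append_iff.1 h
  obtain ⟨J, hJ, rfl⟩ := List.sublist_map_iff.1 hp1
  obtain ⟨Ks, hK, rfl⟩ := List.sublist_map_iff.1 hp2
  exact ⟨J, Ks, hJ, hK, List.prod_append⟩

/-- A dissociated family of short words gives a gadget. -/
lemma stage_of_dis {N j ℓ : ℕ} {X : ℕ → ℕ → Word g} {Q : ℕ → Word g}
    (hXl : ∀ r i, r < N → i < N → (X r i).length ≤ ℓ) (hQl : ∀ i < N, (Q i).length ≤ ℓ)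
    (hX : ∀ r i, r < N → i < N → ev s (X r i) ∈ KK t a j)
    (hd : Dis (KK t a j) (fun r i => ev s (X r i)) N)
    (hfst : ∀ n m, n ≤ N → m ≤ N → ∀ A, ∀ z ∈ KK t a (j + 1),
      ∀ (J : List ℕ) (Ks : List (ℕ × ℕ)), J.Sublist (List.range n) → Ks.Sublist (pairs n m) →
      z * ((J.map (setEl (fun r i => ev s (X r i)) m A)).prod *
        (Ks.map (eraseEl (fun r i => ev s (X r i)) (fun i => ev s (Q i)))).prod) =
        PP (fun i => ev s (Q i)) m → Ks.map Prod.fst = List.range m)
    {ℓ' b : ℕ} (hℓ : ℓ ≤ ℓ') (hℓ' : 2 * N * ℓ ≤ ℓ') : Stage s t a N (j + 1) ℓ' b := by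
  refine ⟨X, Q, [], fun r i hr hi => (hXl r i hr hi).trans hℓ, fun i hi => (hQl i hi).trans hℓ,
    by simp, by simp, ?_, ?_⟩
  · intro n m hn hm A z hz l hl h
    rw [List.map_nil, List.nil_append] at hl
    obtain ⟨J, Ks, hJ, hK, he⟩ := split_gList hl
    rw [he] at h
    exact cov_of_eq hX hd hn hm hJ hK (hfst n m hn hm A z hz J Ks hJ hK h) hz h
  · intro n m hn hm A hcov
    obtain ⟨l, hl, u, v, hu, hv, hu', hv', hz, he⟩ := complete hX (fun i => ev s (Q i)) hn hm hcov
    refine ⟨l, by rwa [List.map_nil, List.nil_append], _, hz, ?_, he⟩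
    have h1 : Ball s (m * ℓ) (u.map fun p => ev s (X p.1 p.2)).prod := by
      have := Ball.prod (s := s) (ℓ := ℓ) (l := u.map fun p => ev s (X p.1 p.2)) (by
        intro x hx
        obtain ⟨p, hp, rfl⟩ := List.mem_map.1 hx
        exact ⟨_, hXl _ _ (hu' p hp).1 (hu' p hp).2, rfl⟩)
      rwa [List.length_map, hu] at this
    have h2 : Ball s (m * ℓ) (v.map fun p => (ev s (X p.1 p.2))⁻¹).prod := by
      have := Ball.prod (s := s) (ℓ := ℓ) (l := v.map fun p => (ev s (X p.1 p.2))⁻¹) (by
        intro x hx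
        obtain ⟨p, hp, rfl⟩ := List.mem_map.1 hx
        exact Ball.inv ⟨_, hXl _ _ (hv' p hp).1 (hv' p hp).2, rfl⟩)
      rwa [List.length_map, hv] at this
    refine (h1.mul h2).mono ?_
    have h3 : m * ℓ ≤ N * ℓ := Nat.mul_le_mul_right _ hm
    have e : 2 * N * ℓ = N * ℓ + N * ℓ := by ring
    omega

/-- One step down. -/
theorem Stage.step {τ α : Word g} (hτ : ev s τ = t) (hα : ev s α = a) (hb : ¬ GoodPair t a)
    {N j ℓ b : ℕ} (hj : 1 ≤ j) (hℓ : (N + 1) * (τ.length + α.length) ≤ ℓ)
    (h : Stage s t a N j ℓ b) :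
    Stage s t a N (j + 1) ((2 * N * N + 2 * N + 1) * ℓ) (b + 2 * (N * N)) := by
  classical
  set P : ℕ → Prop := fun k => ∃ w : ℕ → Word g, (∀ i < k, (w i).length ≤ ℓ ∧
    ev s (w i) ∈ KK t a j) ∧ DisF (KK t a j) (fun i => ev s (w i)) k with hP
  have hP0 : P 0 := by
    refine ⟨fun _ => [], by simp, ?_⟩
    intro Xs Ys _ _ h3 h4 _ x
    exact ⟨fun hx => absurd (h3 x hx) (by omega), fun hx => absurd (h4 x hx) (by omega)⟩
  set k := Nat.findGreatest P (N * N) with hk
  have hPk : P k := Nat.findGreatest_spec (Nat.zero_le _) hP0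
  have hkN : k ≤ N * N := Nat.findGreatest_le _
  have hfact : ∀ x : ℕ, x ≤ (2 * N * N + 2 * N + 1) → x * ℓ ≤ (2 * N * N + 2 * N + 1) * ℓ :=
    fun x hx => Nat.mul_le_mul_right _ hx
  rcases hkN.lt_or_eq with hlt | heq
  · -- the poor case
    have hnot : ¬ P (k + 1) := Nat.findGreatest_is_greatest (Nat.lt_succ_self k) hlt
    obtain ⟨w, hw, hd⟩ := hPk
    obtain ⟨X, Q, W, hX, hQ, hWl, hWb, hsound, hcomp⟩ := h
    set E : List (Word g) := (List.range k).map w with hE
    have hEw : ∀ v ∈ E, v.length ≤ ℓ ∧ ev s v ∈ KK t a j := by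
      intro v hv
      obtain ⟨i, hi, rfl⟩ := List.mem_map.1 hv
      exact hw i (List.mem_range.1 hi)
    have hrepr : ∀ z, z ∈ KK t a j → Ball s ℓ z → ∃ d : List G,
        d.Sublist ((E.map winv ++ E).map (ev s)) ∧ d.length ≤ 2 * k ∧
        (∀ x ∈ d, Ball s ℓ x) ∧ (∀ x ∈ d, x ∈ KK t a j) ∧ d.prod * z ∈ KK t a (j + 1) := by
      rintro z hz ⟨v, hv, rfl⟩
      obtain ⟨Us, Vs, hU, hV, hU', hV', he⟩ := exists_repr (f := fun i =>
        ev s (Function.update w k v i)) (k := k) (disF_congr (fun x hx => by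
          rw [Function.update_of_ne hx.ne]) hd) (by
        intro h
        refine hnot ⟨Function.update w k v, fun i hi => ?_, h⟩
        by_cases hik : i = k
        · subst hik; rw [Function.update_self]; exact ⟨hv, hz⟩
        · rw [Function.update_of_ne hik]; exact hw i (by omega))
      simp only [Function.update_self] at he
      have hcongr : ∀ l : List ℕ, (∀ x ∈ l, x < k) →
          (l.map fun x => cls (KK t a j) (ev s (Function.update w k v x))).sum =
            (l.map fun x => cls (KK t a j) (ev s (w x))).sum := by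
        intro l hl
        congr 1
        refine List.map_congr_left fun x hx => ?_
        rw [Function.update_of_ne (hl x hx).ne]
      rw [hcongr Us hU', hcongr Vs hV'] at he
      obtain ⟨lU, hlU, hsU⟩ := exists_sublist_sum
        (fun x => cls (KK t a j) (ev s (w x))) hU hU'
      obtain ⟨lV, hlV, hsV⟩ := exists_sublist_sum
        (fun x => cls (KK t a j) (ev s (w x))) hV hV'
      have hmU : ∀ x ∈ lU, x < k := fun x hx => List.mem_range.1 (hlU.subset hx)
      have hmV : ∀ x ∈ lV, x < k := fun x hx => List.mem_range.1 (hlV.subset hx)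
      set dU : List G := lU.map fun x => (ev s (w x))⁻¹ with hdU
      set dV : List G := lV.map fun x => ev s (w x) with hdV
      have hUK : ∀ x ∈ dU, x ∈ KK t a j := by
        intro x hx
        obtain ⟨i, hi, rfl⟩ := List.mem_map.1 hx
        exact inv_mem (hw i (hmU i hi)).2
      have hVK : ∀ x ∈ dV, x ∈ KK t a j := by
        intro x hx
        obtain ⟨i, hi, rfl⟩ := List.mem_map.1 hx
        exact (hw i (hmV i hi)).2
      refine ⟨dU ++ dV, ?_, ?_, ?_, ?_, ?_⟩
      · rw [List.map_append]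
        refine List.Sublist.append ?_ ?_
        · have e : (E.map winv).map (ev s) = (List.range k).map fun x => (ev s (w x))⁻¹ := by
            rw [hE, List.map_map, List.map_map]
            exact List.map_congr_left fun x _ => ev_winv s (w x)
          rw [e]
          exact hlU.map _
        · have e : E.map (ev s) = (List.range k).map fun x => ev s (w x) := by
            rw [hE, List.map_map]; rfl
          rw [e]
          exact hlV.map _
      · rw [List.length_append, hdU, hdV, List.length_map, List.length_map]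
        have h1 := hlU.length_le
        have h2 := hlV.length_le
        rw [List.length_range] at h1 h2
        omega
      · intro x hx
        rcases List.mem_append.1 hx with hx | hx
        · obtain ⟨i, hi, rfl⟩ := List.mem_map.1 hx
          exact Ball.inv ⟨_, (hw i (hmU i hi)).1, rfl⟩
        · obtain ⟨i, hi, rfl⟩ := List.mem_map.1 hx
          exact ⟨_, (hw i (hmV i hi)).1, rfl⟩
      · intro x hx
        rcases List.mem_append.1 hx with hx | hx
        · exact hUK x hx
        · exact hVK x hx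
      · have h1 := Subgroup.list_prod_mem _ hUK
        have h2 := Subgroup.list_prod_mem _ hVK
        rw [List.prod_append, KK, ← cls_eq_zero_iff _ (mul_mem (mul_mem h1 h2) hz),
          cls_mul _ (mul_mem h1 h2) hz, cls_mul _ h1 h2, cls_prod _ hUK, cls_prod _ hVK, he,
          hdU, hdV, List.map_map, List.map_map, ← hsU, ← hsV]
        have e1 : (lU.map (cls (KK t a j) ∘ fun x => (ev s (w x))⁻¹)).sum =
            -(lU.map fun x => cls (KK t a j) (ev s (w x))).sum := by
          clear hmU hlU hsU hdU dU hUK h1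
          induction lU with
          | nil => simp
          | cons i l ih =>
            rw [List.map_cons, List.sum_cons, ih, List.map_cons, List.sum_cons, neg_add]
            congr 1
            exact cls_inv _ _
        rw [e1]
        have e2 : (cls (KK t a j) ∘ fun x => ev s (w x)) =
            fun x => cls (KK t a j) (ev s (w x)) := rfl
        rw [e2]
        abel
    refine ⟨X, Q, (E.map winv ++ E) ++ W, fun r i hr hi => (hX r i hr hi).trans ?_,
      fun i hi => (hQ i hi).trans ?_, ?_, ?_, ?_, ?_⟩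
    · have := hfact 1 (by omega); omega
    · have := hfact 1 (by omega); omega
    · have h1 := hfact 1 (by omega)
      intro v hv
      rcases List.mem_append.1 hv with hv | hv
      · rcases List.mem_append.1 hv with hv | hv
        · obtain ⟨u, hu, rfl⟩ := List.mem_map.1 hv
          have := (hEw u hu).1
          have e : (winv u).length = u.length := by simp [winv]
          omega
        · have := (hEw v hv).1; omega
      · have := hWl v hv; omega
    · rw [List.length_append, List.length_append, List.length_map, hE, List.length_map,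
        List.length_range]
      omega
    · intro n m hn hm A z hz l hl he
      rw [List.map_append, List.append_assoc] at hl
      obtain ⟨d, l', rfl, hd', hl'⟩ := List.sublist_append_iff.1 hl
      refine hsound n m hn hm A (z * d.prod) (mul_mem (KK_anti t a (Nat.le_succ j) hz)
        (Subgroup.list_prod_mem _ fun x hx => ?_)) l' hl' ?_
      · have hx' := hd'.subset hx
        rw [List.map_append] at hx'
        rcases List.mem_append.1 hx' with hx' | hx'
        · obtain ⟨u, hu, rfl⟩ := List.mem_map.1 hx'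
          obtain ⟨u', hu', rfl⟩ := List.mem_map.1 hu
          rw [ev_winv]
          exact inv_mem (hEw u' hu').2
        · obtain ⟨u, hu, rfl⟩ := List.mem_map.1 hx'
          exact (hEw u hu).2
      · rw [← he, List.prod_append, mul_assoc]
    · intro n m hn hm A hcov
      obtain ⟨l, hl, z, hz, hzB, he⟩ := hcomp n m hn hm A hcov
      obtain ⟨d, hd1, hd2, hd3, -, hd5⟩ := hrepr z hz hzB
      refine ⟨d ++ l, ?_, d.prod * z, hd5, ?_, ?_⟩
      · rw [List.map_append, List.append_assoc]
        exact hd1.append hl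
      · refine ((Ball.prod hd3).mul hzB).mono ?_
        have h1 : d.length * ℓ + ℓ = (d.length + 1) * ℓ := by ring
        rw [h1]
        exact hfact _ (by nlinarith)
      · rw [List.prod_append, he, mul_assoc]
  · -- the rich case
    rw [heq] at hPk
    obtain ⟨w, hw, hd⟩ := hPk
    have hidx : ∀ r i, r < N → i < N → r * N + i < N * N := by
      intro r i hr hi
      have : (r + 1) * N ≤ N * N := Nat.mul_le_mul_right _ hr
      have e : (r + 1) * N = r * N + N := by ring
      omega
    set τQ : ℕ → Word g := fun i => Pool.Agent.Helper87.SSP.wpow τ (i + 1) ++ α with hτQ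
    have hQev : (fun i => ev s (τQ i)) = Q1 t a := by
      funext i
      rw [hτQ]
      simp only
      rw [ev_append, Pool.Agent.Helper87.SSP.ev_wpow, hτ, hα]
      rfl
    have hQlen : ∀ i < N, (τQ i).length ≤ ℓ := by
      intro i hi
      have e : (Pool.Agent.Helper87.SSP.wpow τ (i + 1)).length = (i + 1) * τ.length := by
        unfold Pool.Agent.Helper87.SSP.wpow
        rw [List.length_flatMap]
        simp
      rw [hτQ]
      simp only
      rw [List.length_append, e]
      have h1 : (i + 1) * τ.length ≤ (N + 1) * τ.length := Nat.mul_le_mul_right _ (by omega)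
      have h2 : α.length ≤ (N + 1) * α.length := Nat.le_mul_of_pos_left _ (by omega)
      have h3 : (N + 1) * (τ.length + α.length) = (N + 1) * τ.length + (N + 1) * α.length := by
        ring
      omega
    have hXK : ∀ r i, r < N → i < N → ev s (w (r * N + i)) ∈ KK t a j :=
      fun r i hr hi => (hw _ (hidx r i hr hi)).2
    refine stage_of_dis (j := j) (ℓ := ℓ) (X := fun r i => w (r * N + i)) (Q := τQ)
      (fun r i hr hi => (hw _ (hidx r i hr hi)).1) hQlen hXK ?_ ?_ ?_ ?_
    · intro Xs Ys hX hY hXN hYN he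
      have hinj : ∀ p : ℕ × ℕ, p.1 < N ∧ p.2 < N → ∀ q : ℕ × ℕ, q.1 < N ∧ q.2 < N →
          p.1 * N + p.2 = q.1 * N + q.2 → p = q := by
        rintro ⟨r, i⟩ ⟨h1, h2⟩ ⟨r', i'⟩ ⟨h3, h4⟩ he
        simp only at h1 h2 h3 h4 he
        obtain ⟨h5, h6⟩ := base_unique (by omega) (by omega) he
        rw [h5, h6]
      have hnd : ∀ l : List (ℕ × ℕ), l.Nodup → (∀ p ∈ l, p.1 < N ∧ p.2 < N) →
          (l.map fun p => p.1 * N + p.2).Nodup := fun l h1 h2 =>
        List.Nodup.map_on (fun p hp q hq he => hinj p (h2 p hp) q (h2 q hq) he) h1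
      have hlt : ∀ l : List (ℕ × ℕ), (∀ p ∈ l, p.1 < N ∧ p.2 < N) →
          ∀ x ∈ l.map fun p => p.1 * N + p.2, x < N * N := by
        intro l hl x hx
        obtain ⟨p, hp, rfl⟩ := List.mem_map.1 hx
        exact hidx _ _ (hl p hp).1 (hl p hp).2
      have h1 := hd _ _ (hnd Xs hX hXN) (hnd Ys hY hYN) (hlt Xs hXN) (hlt Ys hYN) (by
        rw [List.map_map, List.map_map]; exact he)
      have key : ∀ l : List (ℕ × ℕ), (∀ p ∈ l, p.1 < N ∧ p.2 < N) → ∀ p : ℕ × ℕ,
          p.1 < N ∧ p.2 < N →
          (p.1 * N + p.2 ∈ l.map (fun p => p.1 * N + p.2) ↔ p ∈ l) := by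
        intro l hl p hp
        constructor
        · intro h
          obtain ⟨q, hq, he⟩ := List.mem_map.1 h
          rwa [← hinj q (hl q hq) p hp he]
        · exact fun h => List.mem_map.2 ⟨p, h, rfl⟩
      intro p
      constructor
      · intro hp
        exact (key Ys hYN p (hXN p hp)).1 ((h1 _).1 ((key Xs hXN p (hXN p hp)).2 hp))
      · intro hp
        exact (key Xs hXN p (hYN p hp)).1 ((h1 _).2 ((key Ys hYN p (hYN p hp)).2 hp))
    · intro n m hn hm A z hz J Ks hJ hK he
      rw [hQev] at he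
      exact fst_level1 hb hn hm (fun r i hr hi => KK_anti t a hj (hXK r i hr hi)) hJ hK
        (KK_anti t a (by omega) hz) he
    · have := hfact 1 (by omega); omega
    · exact hfact (2 * N) (by omega)

end stage

end Pool.Agent.Helper87.SSP2
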